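import Pool.Agent.helper13.LCL.Det
import Pool.Agent.helper20.LCL.Borel

/-!
# No Borel solution on the circle
-/

namespace LCLZ

/-- There is no Borel labelling of the circle, with `ℤ²` acting by rotations by `√2` and `√3`,
which satisfies the rules everywhere. -/
theorem borel_side :
    ¬ ∃ F : AddCircle (1 : ℝ) → Lab, Measurable F ∧ ∀ t : AddCircle (1 : ℝ), ∀ i j : ℤ,
      Rl (fun m n => F (t + ((m * √2 + n * √3 : ℝ) : AddCircle (1 : ℝ)))) i j :=
  borel_side_of (fun _ V h1 h2 => Fn_of V h1 h2) (fun _ V F u v => area V F u v)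
    (fun _ V hN => det V hN)

end LCLZ
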