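import Pool.Agent.helper13.LCL.Integ

/-!
# At least half of an island is outside its subislands
-/

namespace LCLZ

lemma vv_of {L : Cfg} {P : ℤ → ℤ → Prop} {x y : ℤ} (h1 : ¬ P x y) (h2 : ¬ P x (y + 1)) :
    ((vv L P x y : ℤ) : ZMod 11) = ht L x (y + 1) - ht L x y := by
  unfold vv; rw [if_neg (by tauto), vma_cast]

lemma hh_of {L : Cfg} {P : ℤ → ℤ → Prop} {x y : ℤ} (h1 : ¬ P x y) (h2 : ¬ P (x + 1) y) :
    ((hh L P x y : ℤ) : ZMod 11) = ht L (x + 1) y - ht L x y := by
  unfold hh; rw [if_neg (by tauto), vma_cast]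

section
variable {L : Cfg} {R P : ℤ → ℤ → Prop} (V : ∀ x y, Rl L x y) (G : Reg L R P)
include V G

/-! paths along markers -/

lemma Reg.s0 {x y : ℤ} (hM : M L x y) (hE : ¬ E L x y) (hd : dv L x y = 0)
    (r1 : R x y) (r2 : R (x + 1) y) (p1 : ¬ P x y) (p2 : ¬ P (x + 1) y) : hh L P x y = 1 := by
  have h1 := (V x y).fN hM hE
  rw [hd, add_zero] at h1
  have b := G.h_le V r1 r2
  apply eq_of_cast
  · rw [hh_of p1 p2, h1]; push_cast; ring
  · rw [abs_le] at *; constructor <;> omega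

lemma Reg.s1 {x y : ℤ} (hM : M L x y) (hE : ¬ E L x y) (hd : dv L x y = 1)
    (r1 : R x y) (r2 : R x (y + 1)) (r3 : R (x + 1) (y + 1)) (p1 : ¬ P x y) (p2 : ¬ P x (y + 1))
    (p3 : ¬ P (x + 1) (y + 1)) : vv L P x y + hh L P x (y + 1) = 1 := by
  have h1 := (V x y).fN hM hE
  rw [hd] at h1
  have b := G.v_le V r1 r2
  have b' := G.h_le V r2 r3
  apply eq_of_cast
  · push_cast
    rw [hh_of p2 p3, vv_of p1 p2, h1]; ring
  · rw [abs_le] at *; constructor <;> omega

lemma Reg.s2 {x y : ℤ} (hM : M L x y) (hE : ¬ E L x y) (hd : dv L x y = -1)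
    (r1 : R x y) (r2 : R (x + 1) y) (r3 : R (x + 1) (y - 1)) (p1 : ¬ P x y) (p2 : ¬ P (x + 1) y)
    (p3 : ¬ P (x + 1) (y - 1)) : hh L P x y - vv L P (x + 1) (y - 1) = 1 := by
  have h1 := (V x y).fN hM hE
  rw [hd] at h1
  have e : y + -1 = y - 1 := by ring
  rw [e] at h1
  have b' := G.h_le V r1 r2
  have b := G.v_le V (x := x + 1) (y := y - 1) r3 (by rw [sub_add_cancel]; exact r2)
  apply eq_of_cast
  · push_cast
    rw [hh_of p1 p2, vv_of p3 (by rw [sub_add_cancel]; exact p2), h1, sub_add_cancel]; ring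
  · rw [abs_le] at *; constructor <;> omega

lemma Reg.s3 {x y : ℤ} (hM : M L x y) (hE : ¬ E L x y) (hd : dv L x y = 1)
    (r1 : R x y) (r2 : R (x + 1) y) (r3 : R (x + 1) (y + 1)) (p1 : ¬ P x y) (p2 : ¬ P (x + 1) y)
    (p3 : ¬ P (x + 1) (y + 1)) : hh L P x y + vv L P (x + 1) y = 1 := by
  have h1 := (V x y).fN hM hE
  rw [hd] at h1
  have b' := G.h_le V r1 r2
  have b := G.v_le V (x := x + 1) (y := y) r2 r3
  apply eq_of_cast
  · push_cast
    rw [hh_of p1 p2, vv_of p2 p3, h1]; ring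
  · rw [abs_le] at *; constructor <;> omega

lemma Reg.s4 {x y : ℤ} (hM : M L x y) (hE : ¬ E L x y) (hd : dv L x y = -1)
    (r1 : R x y) (r2 : R x (y - 1)) (r3 : R (x + 1) (y - 1)) (p1 : ¬ P x y) (p2 : ¬ P x (y - 1))
    (p3 : ¬ P (x + 1) (y - 1)) : hh L P x (y - 1) - vv L P x (y - 1) = 1 := by
  have h1 := (V x y).fN hM hE
  rw [hd] at h1
  have e : y + -1 = y - 1 := by ring
  rw [e] at h1
  have b' := G.h_le V r2 r3
  have b := G.v_le V (x := x) (y := y - 1) r2 (by rw [sub_add_cancel]; exact r1)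
  apply eq_of_cast
  · push_cast
    rw [hh_of p2 p3, vv_of p2 (by rw [sub_add_cancel]; exact p1), h1, sub_add_cancel]; ring
  · rw [abs_le] at *; constructor <;> omega

end

/-- the sites of the islands inside a given island -/
def subP (L : Cfg) (a β : ℤ) (N : ℕ) (x y : ℤ) : Prop :=
  ∃ a' β' N', Isl L a' β' N' ∧ Sub L a' β' N' a β N ∧ inI L a' β' N' x y

section
variable {L : Cfg} (V : ∀ x y, Rl L x y)
include V

lemma near_up {a β : ℤ} {N : ℕ} (h : Isl L a β N) {x y : ℤ} (hin : inI L a β N x y)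
    (hM : M L x (y + 1)) : fin L x (y + 1) := by
  by_cases hi : inI L a β N x (y + 1)
  · exact fin_in V h hi hM
  · exfalso
    obtain ⟨n, hn, rfl, hl, hh⟩ := hin
    have : ¬ (y + 1 ≤ pos L a (β + 10) n) := fun c => hi ⟨n, hn, rfl, by omega, c⟩
    have e : pos L a (β + 10) n = y := by omega
    have hM' : M L (a + n) (pos L a (β + 10) n) := Or.inr (h.Mhi V hn)
    rw [e] at hM'
    have := sp_lt V hM' hM (by omega)
    omega

lemma near_dn {a β : ℤ} {N : ℕ} (h : Isl L a β N) {x y : ℤ} (hin : inI L a β N x y)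
    (hM : M L x (y - 1)) : fin L x (y - 1) := by
  by_cases hi : inI L a β N x (y - 1)
  · exact fin_in V h hi hM
  · exfalso
    obtain ⟨n, hn, rfl, hl, hh⟩ := hin
    have : ¬ (pos L a β n ≤ y - 1) := fun c => hi ⟨n, hn, rfl, c, by omega⟩
    have e : pos L a β n = y := by omega
    have hM' : M L (a + n) (pos L a β n) := Or.inl (h.Mlo V hn)
    rw [e] at hM'
    have := sp_lt V hM hM' (by omega)
    omega

lemma isl_reg (F : Fn L) {a β : ℤ} {N : ℕ} (h : Isl L a β N) :
    Reg L (inI L a β N) (subP L a β N) := by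
  have key : ∀ {a2 β2 : ℤ} {N2 : ℕ} {x y x' y' : ℤ}, Isl L a2 β2 N2 → inI L a β N x y →
      inI L a β N x' y' → inI L a2 β2 N2 x y → ¬ inI L a2 β2 N2 x' y' → subP L a β N x y := by
    intro a2 β2 N2 x y x' y' h2 i1 i1' i2 i2'
    rcases lam V h h2 i1 i2 with ⟨rfl, rfl, rfl⟩ | h3 | h3
    · exact absurd i1' i2'
    · exact ⟨a2, β2, N2, h2, h3, i2⟩
    · exact absurd (h3.mem i1') i2'
  constructor
  · intro x y r1 r2 p1 p2 hcr
    rcases hcr with hcr | hcr
    · obtain ⟨a2, β2, N2, h2, i1, i2⟩ := X2R V F (fin_in V h r1) hcr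
      exact p1 (key h2 r1 r2 i1 i2)
    · obtain ⟨a2, β2, N2, h2, i1, i2⟩ := X2L V F (near_up V h r1) (near_dn V h r1) hcr
      exact p2 (key h2 r2 r1 i1 i2)
  · intro x y r1 r2 p1 p2 hcr
    rcases hcr with hcr | hcr
    · obtain ⟨a2, β2, N2, h2, i1, i2⟩ := X2U V F (fin_in V h r1) hcr
      exact p1 (key h2 r1 r2 i1 i2)
    · obtain ⟨a2, β2, N2, h2, i1, i2⟩ := X2D V F (fin_in V h r2) hcr
      exact p2 (key h2 r2 r1 i1 i2)
  · rintro x y ⟨a2, β2, N2, h2, h3, h4⟩ p2
    exact X1R V h2 h4 (fun h5 => p2 ⟨a2, β2, N2, h2, h3, h5⟩)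
  · rintro x y ⟨a2, β2, N2, h2, h3, h4⟩ p2
    exact X1L V h2 h4 (fun h5 => p2 ⟨a2, β2, N2, h2, h3, h5⟩)
  · rintro x y ⟨a2, β2, N2, h2, h3, h4⟩ p2
    exact X1U V h2 h4 (fun h5 => p2 ⟨a2, β2, N2, h2, h3, h5⟩)
  · rintro x y ⟨a2, β2, N2, h2, h3, h4⟩ p2
    exact X1D V h2 h4 (fun h5 => p2 ⟨a2, β2, N2, h2, h3, h5⟩)

omit V in
lemma subP_far {a β : ℤ} {N : ℕ} {n : ℕ} {y : ℤ} (hP : subP L a β N (a + n) y) :
    1 ≤ n ∧ n < N ∧ pos L a β n + 5 ≤ y ∧ y + 5 ≤ pos L a (β + 10) n := by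
  obtain ⟨a', β', N', h1, ⟨k, hk, rfl, hlt, h2⟩, ⟨m, hm, hx, hl, hh⟩⟩ := hP
  have e : n = k + m := by omega
  subst e
  have := h2 m hm
  omega

/-- the height function of an island, in the column `n` -/
lemma isl_integ (F : Fn L) {a β : ℤ} {N : ℕ} (h : Isl L a β N) :
    (∀ n < N, ∀ y, pos L a β n ≤ y → pos L a β (n + 1) ≤ y → y ≤ pos L a (β + 10) n →
      y ≤ pos L a (β + 10) (n + 1) →
      Ph a (pos L a β) (vv L (subP L a β N)) 1 (n + 1) y -
        Ph a (pos L a β) (vv L (subP L a β N)) 1 n y = hh L (subP L a β N) (a + n) y) ∧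
    (∀ n ≤ N, Ph a (pos L a β) (vv L (subP L a β N)) 1 n (pos L a (β + 10) n) = n) ∧
    (∀ y, β ≤ y → y ≤ β + 10 → Ph a (pos L a β) (vv L (subP L a β N)) 1 0 y = 0) ∧
    (∀ y, pos L a β N ≤ y → y ≤ pos L a (β + 10) N →
      Ph a (pos L a β) (vv L (subP L a β N)) 1 N y = N) := by
  have G := isl_reg V F h
  set lo := pos L a β with hlo
  set hi := pos L a (β + 10) with hhi
  set P := subP L a β N with hP
  have hcast : ∀ n : ℕ, a + ((n + 1 : ℕ) : ℤ) = a + n + 1 := by intro n; push_cast; ring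
  have hgap : ∀ n ≤ N, lo n + 5 ≤ hi n := fun n hn => h.gap V hn
  have hRin : ∀ n ≤ N, ∀ y, lo n ≤ y → y ≤ hi n → inI L a β N (a + n) y :=
    fun n hn y h1 h2 => ⟨n, hn, rfl, h1, h2⟩
  have hRin' : ∀ n < N, ∀ y, lo (n + 1) ≤ y → y ≤ hi (n + 1) → inI L a β N (a + n + 1) y :=
    fun n hn y h1 h2 => ⟨n + 1, hn, by push_cast; ring, h1, h2⟩
  have hPf : ∀ n : ℕ, ∀ y, P (a + n) y → 1 ≤ n ∧ n < N ∧ lo n + 5 ≤ y ∧ y + 5 ≤ hi n :=
    fun n y hp => subP_far hp
  have hPf' : ∀ n : ℕ, ∀ y, P (a + n + 1) y → lo (n + 1) + 5 ≤ y ∧ y + 5 ≤ hi (n + 1) := by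
    intro n y hp
    rw [← hcast] at hp
    exact (hPf (n + 1) y hp).2.2
  have slo : ∀ n : ℕ, lo (n + 1) = lo n + dv L (a + n) (lo n) := fun n => rfl
  have shi : ∀ n : ℕ, hi (n + 1) = hi n + dv L (a + n) (hi n) := fun n => rfl
  have dlo : ∀ n : ℕ, dv L (a + n) (lo n) ≤ 1 ∧ -1 ≤ dv L (a + n) (lo n) :=
    fun n => ⟨dv_le _ _ _, le_dv _ _ _⟩
  have dhi : ∀ n : ℕ, dv L (a + n) (hi n) ≤ 1 ∧ -1 ≤ dv L (a + n) (hi n) :=
    fun n => ⟨dv_le _ _ _, le_dv _ _ _⟩
  have Mlo : ∀ n ≤ N, M L (a + n) (lo n) := fun n hn => Or.inl (h.Mlo V hn)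
  have Mhi : ∀ n ≤ N, M L (a + n) (hi n) := fun n hn => Or.inr (h.Mhi V hn)
  -- the integration lemma
  have hint := integ (a := a) (lo := lo) (hi := hi) (v := vv L P) (h := hh L P) (ib := 1)
    (it := 1) N (fun n hn => by have := hgap n hn; omega)
    (fun n hn => by have := slo n; have := dlo n; omega)
    (fun n hn => by have := shi n; have := dhi n; omega)
    (fun n hn he => by
      have g1 := hgap n hn.le
      have g2 := hgap (n + 1) hn
      have e := slo n
      exact G.s0 V (Mlo n hn.le) (h.la n hn) (by omega) (hRin n hn.le _ (by omega) (by omega))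
        (hRin' n hn _ (by omega) (by omega)) (fun hp => by have := hPf _ _ hp; omega)
        (fun hp => by have := hPf' _ _ hp; omega))
    (fun n hn he => by
      have g1 := hgap n hn.le
      have g2 := hgap (n + 1) hn
      have e := slo n
      exact G.s1 V (Mlo n hn.le) (h.la n hn) (by omega) (hRin n hn.le _ (by omega) (by omega))
        (hRin n hn.le _ (by omega) (by omega))
        (hRin' n hn _ (by omega) (by omega)) (fun hp => by have := hPf _ _ hp; omega)
        (fun hp => by have := hPf _ _ hp; omega)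
        (fun hp => by have := hPf' _ _ hp; omega))
    (fun n hn he => by
      have g1 := hgap n hn.le
      have g2 := hgap (n + 1) hn
      have e := slo n
      exact G.s2 V (Mlo n hn.le) (h.la n hn) (by omega) (hRin n hn.le _ (by omega) (by omega))
        (hRin' n hn _ (by omega) (by omega))
        (hRin' n hn _ (by omega) (by omega)) (fun hp => by have := hPf _ _ hp; omega)
        (fun hp => by have := hPf' _ _ hp; omega)
        (fun hp => by have := hPf' _ _ hp; omega))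
    (fun n hn he => by
      have g1 := hgap n hn.le
      have g2 := hgap (n + 1) hn
      have e := shi n
      exact G.s0 V (Mhi n hn.le) (h.ha n hn) (by omega) (hRin n hn.le _ (by omega) (by omega))
        (hRin' n hn _ (by omega) (by omega)) (fun hp => by have := hPf _ _ hp; omega)
        (fun hp => by have := hPf' _ _ hp; omega))
    (fun n hn he => by
      have g1 := hgap n hn.le
      have g2 := hgap (n + 1) hn
      have e := shi n
      exact G.s3 V (Mhi n hn.le) (h.ha n hn) (by omega) (hRin n hn.le _ (by omega) (by omega))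
        (hRin' n hn _ (by omega) (by omega))
        (hRin' n hn _ (by omega) (by omega)) (fun hp => by have := hPf _ _ hp; omega)
        (fun hp => by have := hPf' _ _ hp; omega)
        (fun hp => by have := hPf' _ _ hp; omega))
    (fun n hn he => by
      have g1 := hgap n hn.le
      have g2 := hgap (n + 1) hn
      have e := shi n
      exact G.s4 V (Mhi n hn.le) (h.ha n hn) (by omega) (hRin n hn.le _ (by omega) (by omega))
        (hRin n hn.le _ (by omega) (by omega))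
        (hRin' n hn _ (by omega) (by omega)) (fun hp => by have := hPf _ _ hp; omega)
        (fun hp => by have := hPf _ _ hp; omega)
        (fun hp => by have := hPf' _ _ hp; omega))
    (fun n hn y c1 c2 c3 c4 =>
      G.sq V (hRin n hn.le _ c1 (by omega)) (hRin' n hn _ c2 (by omega))
        (hRin n hn.le _ (by omega) c3) (hRin' n hn _ (by omega) c4))
  obtain ⟨hint1, hint2⟩ := hint
  -- vertical ends
  have vend : ∀ n ≤ N, (∀ m : ℤ, 0 ≤ m → m ≤ 10 → ht L (a + n) (lo n + m) = ht L (a + n) (lo n)) →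
      (∀ y, ¬ P (a + n) y) → hi n = lo n + 10 →
      ∀ k : ℕ, k ≤ 10 → Ph a lo (vv L P) 1 n (lo n + k) = n := by
    intro n hn hconst hnP hlen k
    induction k with
    | zero => intro _; simp [Ph_lo]
    | succ k ih =>
      intro hk
      have ih := ih (by omega)
      have h1 := Ph_succ (a := a) (v := vv L P) (ib := 1) (lo := lo) (n := n) (y := lo n + k)
        (by omega)
      have e : lo n + ((k + 1 : ℕ) : ℤ) = lo n + k + 1 := by push_cast; ring
      rw [e, h1, ih]
      have h2 : vv L P (a + n) (lo n + k) = 0 := by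
        have r1 := hRin n hn (lo n + k) (by omega) (by omega)
        have r2 := hRin n hn (lo n + k + 1) (by omega) (by omega)
        have b := G.v_le V r1 r2
        apply eq_of_cast
        · rw [vv_of (hnP _) (hnP _), hconst k (by omega) (by omega)]
          have := hconst (k + 1) (by omega) (by omega)
          rw [← add_assoc] at this
          rw [this]; push_cast; ring
        · rw [abs_le] at *; constructor <;> omega
      rw [h2, add_zero]
  have v0 : ∀ y, β ≤ y → y ≤ β + 10 → Ph a lo (vv L P) 1 0 y = 0 := by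
    intro y c1 c2
    obtain ⟨k, rfl⟩ : ∃ k : ℕ, y = β + k := ⟨(y - β).toNat, by omega⟩
    have hl0 : lo 0 = β := rfl
    have := vend 0 (Nat.zero_le _) (fun m hm hm' => by
      rw [hl0]; simpa using (V a β).fE h.b (Or.inl h.s) m hm hm') (fun y hp => by
        have := hPf 0 y hp; omega) rfl k (by omega)
    rw [hl0] at this
    simpa using this
  refine ⟨hint1, ?_, v0, ?_⟩
  · intro n hn
    have h1 := hint2 n hn
    have h2 : Ph a lo (vv L P) 1 0 (hi 0) = 0 := v0 (β + 10) (by omega) (by omega)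
    rw [h1, h2]; ring
  · intro y c1 c2
    have hlen : hi N = lo N + 10 := h.eq
    obtain ⟨k, rfl⟩ : ∃ k : ℕ, y = lo N + k := ⟨(y - lo N).toNat, by omega⟩
    exact vend N le_rfl (fun m hm hm' => (V _ _).fE (h.Mlo V le_rfl) (Or.inr h.le) m hm hm')
      (fun y hp => by have := hPf N y hp; omega) hlen k (by omega)

end

end LCLZ
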