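import Pool.Agent.helper13.LCL.Area

/-!
# Counting: `|D| ≤ 2 |D minus subislands|`
-/

namespace LCLZ

variable {L : Cfg}

lemma pos_bound (x y : ℤ) (n : ℕ) : y - n ≤ pos L x y n ∧ pos L x y n ≤ y + n := by
  induction n with
  | zero => simp
  | succ n ih =>
    have h1 := dv_le L (x + n) (pos L x y n)
    have h2 := le_dv L (x + n) (pos L x y n)
    rw [pos_succ]
    push_cast
    omega

section
variable (V : ∀ x y, Rl L x y)
include V

open Classical in
lemma row (F : Fn L) {a β : ℤ} {N : ℕ} (h : Isl L a β N) (y : ℤ) :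
    (∑ n ∈ Finset.range (N + 1),
      if pos L a β n ≤ y ∧ y ≤ pos L a (β + 10) n then (1 : ℤ) else 0) ≤
    2 * ∑ n ∈ Finset.range (N + 1),
      if (pos L a β n ≤ y ∧ y ≤ pos L a (β + 10) n) ∧ ¬ subP L a β N (a + n) y then
        (1 : ℤ) else 0 := by
  obtain ⟨i1, i2, i3, i4⟩ := isl_integ V F h
  have G := isl_reg V F h
  set lo := pos L a β with hlo
  set hi := pos L a (β + 10) with hhi
  set P := subP L a β N with hP
  set Φ := Ph a lo (vv L P) 1 with hΦ
  have hcast : ∀ n : ℕ, a + ((n + 1 : ℕ) : ℤ) = a + n + 1 := by intro n; push_cast; ring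
  have hgap : ∀ n ≤ N, lo n + 5 ≤ hi n := fun n hn => h.gap V hn
  have hPf : ∀ n : ℕ, ∀ y, P (a + n) y → 1 ≤ n ∧ n < N ∧ lo n + 5 ≤ y ∧ y + 5 ≤ hi n :=
    fun n y hp => subP_far hp
  have slo : ∀ n : ℕ, lo (n + 1) = lo n + dv L (a + n) (lo n) := fun n => rfl
  have shi : ∀ n : ℕ, hi (n + 1) = hi n + dv L (a + n) (hi n) := fun n => rfl
  have dlo : ∀ n : ℕ, dv L (a + n) (lo n) ≤ 1 ∧ -1 ≤ dv L (a + n) (lo n) :=
    fun n => ⟨dv_le _ _ _, le_dv _ _ _⟩
  have dhi : ∀ n : ℕ, dv L (a + n) (hi n) ≤ 1 ∧ -1 ≤ dv L (a + n) (hi n) :=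
    fun n => ⟨dv_le _ _ _, le_dv _ _ _⟩
  have hΦlo : ∀ n, Φ n (lo n) = n := by intro n; rw [hΦ, Ph_lo, one_mul]
  set g : ℕ → ℤ := fun n => if lo n ≤ y ∧ y ≤ hi n then Φ n y else n with hg
  have step : ∀ n < N, g (n + 1) - g n ≤ 1 - (if lo n ≤ y ∧ y ≤ hi n then (1 : ℤ) else 0) +
      2 * (if (lo n ≤ y ∧ y ≤ hi n) ∧ ¬ P (a + n) y then (1 : ℤ) else 0) := by
    intro n hn
    have e1 := slo n
    have e2 := shi n
    have e3 := dlo n
    have e4 := dhi n
    have g1 := hgap n hn.le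
    have g2 := hgap (n + 1) hn
    have c1 := hΦlo (n + 1)
    have c2 := i2 (n + 1) hn
    have c3 := hΦlo n
    have c4 := i2 n hn.le
    push_cast at c1 c2
    simp only [hg]
    by_cases hD : lo n ≤ y ∧ y ≤ hi n
    · by_cases hD' : lo (n + 1) ≤ y ∧ y ≤ hi (n + 1)
      · rw [if_pos hD, if_pos hD', if_pos hD]
        have h1 := i1 n hn y hD.1 hD'.1 hD.2 hD'.2
        rw [h1]
        have r1 : inI L a β N (a + n) y := ⟨n, hn.le, rfl, hD.1, hD.2⟩
        have r2 : inI L a β N (a + n + 1) y := ⟨n + 1, hn, by push_cast; ring, hD'.1, hD'.2⟩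
        by_cases hp : P (a + n) y
        · rw [if_neg (by tauto)]
          have : hh L P (a + n) y = 0 := by unfold hh; rw [if_pos (Or.inl hp)]
          rw [this]; norm_num
        · rw [if_pos ⟨hD, hp⟩]
          have := G.h_le V r1 r2
          rw [abs_le] at this
          omega
      · rw [if_pos hD, if_neg hD', if_pos hD]
        have hc : (y = lo n ∧ lo (n + 1) = lo n + 1) ∨ (y = hi n ∧ hi (n + 1) = hi n - 1) := by
          omega
        have hval : Φ n y = n := by
          rcases hc with ⟨h1, -⟩ | ⟨h1, -⟩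
          · rw [h1, c3]
          · rw [h1, c4]
        have hp : ¬ P (a + n) y := by
          intro hp
          have := hPf n y hp
          omega
        rw [if_pos ⟨hD, hp⟩, hval]
        push_cast; omega
    · by_cases hD' : lo (n + 1) ≤ y ∧ y ≤ hi (n + 1)
      · rw [if_neg hD, if_pos hD', if_neg hD, if_neg (by tauto)]
        have hc : (y = lo (n + 1)) ∨ (y = hi (n + 1)) := by omega
        have hval : Φ (n + 1) y = n + 1 := by
          rcases hc with h1 | h1
          · rw [h1, c1]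
          · rw [h1, c2]
        rw [hval]; omega
      · rw [if_neg hD, if_neg hD', if_neg hD, if_neg (by tauto)]
        push_cast; omega
  have hsum : ∑ n ∈ Finset.range N, (g (n + 1) - g n) ≤ ∑ n ∈ Finset.range N,
      (1 - (if lo n ≤ y ∧ y ≤ hi n then (1 : ℤ) else 0) +
      2 * (if (lo n ≤ y ∧ y ≤ hi n) ∧ ¬ P (a + n) y then (1 : ℤ) else 0)) :=
    Finset.sum_le_sum (fun n hn => step n (Finset.mem_range.1 hn))
  rw [Finset.sum_range_sub, Finset.sum_add_distrib, Finset.sum_sub_distrib, Finset.sum_const,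
    Finset.card_range, ← Finset.mul_sum] at hsum
  have hg0 : g 0 = 0 := by
    simp only [hg]
    split_ifs with hD
    · have h1 : lo 0 = β := rfl
      have h2 : hi 0 = β + 10 := rfl
      exact i3 y (by omega) (by omega)
    · rfl
  have hgN : g N = N := by
    simp only [hg]
    split_ifs with hD
    · exact i4 y hD.1 hD.2
    · rfl
  rw [Finset.sum_range_succ, Finset.sum_range_succ]
  have hlast : (if lo N ≤ y ∧ y ≤ hi N then (1 : ℤ) else 0) ≤
      2 * (if (lo N ≤ y ∧ y ≤ hi N) ∧ ¬ P (a + N) y then (1 : ℤ) else 0) := by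
    by_cases hD : lo N ≤ y ∧ y ≤ hi N
    · have hp : ¬ P (a + N) y := fun hp => by have := hPf N y hp; omega
      rw [if_pos hD, if_pos ⟨hD, hp⟩]; norm_num
    · rw [if_neg hD, if_neg (by tauto)]; norm_num
  rw [hg0, hgN] at hsum
  simp only [nsmul_eq_mul, mul_one] at hsum
  linarith

lemma Isl.uniq {a β : ℤ} {N N' : ℕ} (h : Isl L a β N) (h' : Isl L a β N') : N = N' :=
  end_unique h.la h.le h'.la h'.le

theorem area (F : Fn L) (u v : ℤ) :
    {z : ℤ × ℤ | QI L z.1 z.2 u v}.Finite ∧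
      {z : ℤ × ℤ | QI L z.1 z.2 u v}.encard ≤ 2 * {z : ℤ × ℤ | QM L z.1 z.2 u v}.encard := by
  classical
  by_cases hex : ∃ N, Isl L u v N
  · obtain ⟨N, h⟩ := hex
    let f : ℕ × ℤ → ℤ × ℤ := fun p => (u + p.1, p.2)
    have hf : Function.Injective f := by
      rintro ⟨n, y⟩ ⟨n', y'⟩ he
      simp only [f, Prod.mk.injEq, add_right_inj, Nat.cast_inj] at he
      exact Prod.ext he.1 he.2
    let box : Finset (ℕ × ℤ) := Finset.range (N + 1) ×ˢ Finset.Icc (v - N) (v + 10 + N)
    let D1 : Finset (ℕ × ℤ) := box.filter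
      (fun p => pos L u v p.1 ≤ p.2 ∧ p.2 ≤ pos L u (v + 10) p.1)
    let D2 : Finset (ℕ × ℤ) := box.filter
      (fun p => (pos L u v p.1 ≤ p.2 ∧ p.2 ≤ pos L u (v + 10) p.1) ∧
        ¬ subP L u v N (u + p.1) p.2)
    have hbox : ∀ n ≤ N, ∀ y, pos L u v n ≤ y → y ≤ pos L u (v + 10) n → (n, y) ∈ box := by
      intro n hn y h1 h2
      have g1 := pos_bound (L := L) u v n
      have g2 := pos_bound (L := L) u (v + 10) n
      simp only [box, Finset.mem_product, Finset.mem_range, Finset.mem_Icc]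
      refine ⟨by omega, by omega, by omega⟩
    have s1 : {z : ℤ × ℤ | QI L z.1 z.2 u v} = f '' (D1 : Set (ℕ × ℤ)) := by
      ext ⟨x, y⟩
      constructor
      · rintro ⟨N', h', n, hn, hx, hl, hh⟩
        have := Isl.uniq V h h'
        subst this
        simp only at hx hl hh
        refine ⟨(n, y), ?_, by simp only [f, hx]⟩
        rw [Finset.mem_coe, Finset.mem_filter]
        exact ⟨hbox n hn y hl hh, hl, hh⟩
      · rintro ⟨⟨n, y'⟩, hp, he⟩
        rw [Finset.mem_coe, Finset.mem_filter] at hp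
        obtain ⟨hp1, hp2, hp3⟩ := hp
        simp only [box, Finset.mem_product, Finset.mem_range, Finset.mem_Icc] at hp1
        simp only [f, Prod.mk.injEq] at he
        obtain ⟨rfl, rfl⟩ := he
        exact ⟨N, h, n, by omega, rfl, hp2, hp3⟩
    have s2 : {z : ℤ × ℤ | QM L z.1 z.2 u v} = f '' (D2 : Set (ℕ × ℤ)) := by
      ext ⟨x, y⟩
      constructor
      · rintro ⟨N', h', ⟨n, hn, hx, hl, hh⟩, h2⟩
        have := Isl.uniq V h h'
        subst this
        simp only at hx hl hh h2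
        refine ⟨(n, y), ?_, by simp only [f, hx]⟩
        rw [Finset.mem_coe, Finset.mem_filter]
        refine ⟨hbox n hn y hl hh, ⟨hl, hh⟩, ?_⟩
        rintro ⟨a', β', N', g1, g2, g3⟩
        simp only at g3
        rw [← hx] at g3
        exact h2 a' β' N' g1 g3 g2
      · rintro ⟨⟨n, y'⟩, hp, he⟩
        rw [Finset.mem_coe, Finset.mem_filter] at hp
        obtain ⟨hp1, ⟨hp2, hp3⟩, hp4⟩ := hp
        simp only [box, Finset.mem_product, Finset.mem_range, Finset.mem_Icc] at hp1
        simp only [f, Prod.mk.injEq] at he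
        obtain ⟨rfl, rfl⟩ := he
        exact ⟨N, h, ⟨n, by omega, rfl, hp2, hp3⟩, fun a' β' N' g1 g2 g3 =>
          hp4 ⟨a', β', N', g1, g3, g2⟩⟩
    have hcard : (D1.card : ℤ) ≤ 2 * D2.card := by
      have e1 : (D1.card : ℤ) = ∑ y ∈ Finset.Icc (v - (N : ℤ)) (v + 10 + N),
          ∑ n ∈ Finset.range (N + 1),
            if pos L u v n ≤ y ∧ y ≤ pos L u (v + 10) n then (1 : ℤ) else 0 := by
        rw [← Finset.sum_product_right', Finset.card_filter]
        push_cast
        rfl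
      have e2 : (D2.card : ℤ) = ∑ y ∈ Finset.Icc (v - (N : ℤ)) (v + 10 + N),
          ∑ n ∈ Finset.range (N + 1),
            if (pos L u v n ≤ y ∧ y ≤ pos L u (v + 10) n) ∧ ¬ subP L u v N (u + n) y
              then (1 : ℤ) else 0 := by
        rw [← Finset.sum_product_right', Finset.card_filter]
        push_cast
        rfl
      rw [e1, e2, Finset.mul_sum]
      exact Finset.sum_le_sum (fun y _ => row V F h y)
    refine ⟨by rw [s1]; exact (Finset.finite_toSet D1).image f, ?_⟩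
    rw [s1, s2, hf.injOn.encard_image, hf.injOn.encard_image,
      Set.encard_coe_eq_coe_finsetCard, Set.encard_coe_eq_coe_finsetCard]
    have : D1.card ≤ 2 * D2.card := by exact_mod_cast hcard
    exact_mod_cast this
  · have : {z : ℤ × ℤ | QI L z.1 z.2 u v} = ∅ := by
      ext z
      simp only [Set.mem_setOf_eq, Set.mem_empty_iff_false, iff_false]
      rintro ⟨N, h, -⟩
      exact hex ⟨N, h⟩
    rw [this]
    exact ⟨Set.finite_empty, by simp⟩

end

end LCLZ
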