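import Pool.Agent.helper13.LCL.InfStr

/-!
# The height across the band between two infinite strands
-/

namespace LCLZ

variable {L : Cfg}

/-- sites on some island -/
def anyP (L : Cfg) (x y : ℤ) : Prop := ∃ a β N, Isl L a β N ∧ inI L a β N x y

/-- the band between two curves -/
def bandR (x : ℤ) (lo hi : ℕ → ℤ) (u v : ℤ) : Prop :=
  ∃ n : ℕ, u = x + n ∧ lo n ≤ v ∧ v ≤ hi n

lemma vv_zero {P : ℤ → ℤ → Prop} {x y : ℤ} (h : ht L x (y + 1) = ht L x y) :
    vv L P x y = 0 := by
  unfold vv; rw [h, sub_self, ZMod.valMinAbs_zero, ite_self]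

lemma hh_zero {P : ℤ → ℤ → Prop} {x y : ℤ} (h : ht L (x + 1) y = ht L x y) :
    hh L P x y = 0 := by
  unfold hh; rw [h, sub_self, ZMod.valMinAbs_zero, ite_self]

lemma vv_le5 {P : ℤ → ℤ → Prop} (x y : ℤ) : |vv L P x y| ≤ 5 := by
  unfold vv
  split_ifs
  · simp
  · generalize ht L x (y + 1) - ht L x y = a
    have := ZMod.valMinAbs_mem_Ioc a
    rw [Set.mem_Ioc] at this
    push_cast at this
    rw [abs_le]
    omega

lemma Ph_bound5 {a : ℤ} {lo : ℕ → ℤ} {v : ℤ → ℤ → ℤ} {ib : ℤ} (hv : ∀ x y, |v x y| ≤ 5)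
    {n : ℕ} {y : ℤ} (hy : lo n ≤ y) :
    |Ph a lo v ib n y - ib * n| ≤ 5 * (y - lo n) := by
  obtain ⟨k, rfl⟩ : ∃ k : ℕ, y = lo n + k := ⟨(y - lo n).toNat, by omega⟩
  clear hy
  induction k with
  | zero => simp [Ph_lo]
  | succ k ih =>
    have h1 := Ph_succ (a := a) (v := v) (ib := ib) (lo := lo) (n := n) (y := lo n + k) (by omega)
    have e : lo n + ((k + 1 : ℕ) : ℤ) = lo n + k + 1 := by push_cast; ring
    rw [e, h1]
    have h2 := hv (a + n) (lo n + k)
    rw [abs_le] at *
    constructor <;> omega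

section
variable (V : ∀ x y, Rl L x y)
include V

lemma band_regB (F : Fn L) {x p q : ℤ} (C : Cns L x p q) (hB : B L x p) (hB' : B L x q) :
    Reg L (bandR x (pos L x p) (fun n => pos L x q n - 1)) (anyP L) := by
  have hcast : ∀ n : ℕ, x + ((n + 1 : ℕ) : ℤ) = x + n + 1 := by intro n; push_cast; ring
  have Bp : ∀ n : ℕ, B L (x + n) (pos L x p n) := fun n => C.hp.B_fw V F hB n
  have Bq : ∀ n : ℕ, B L (x + n) (pos L x q n) := fun n => C.hq.B_fw V F hB' n
  have Cn := fun n => C.fw V F n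
  constructor
  · rintro u v ⟨n, rfl, r1, r2⟩ ⟨n', hn', r3, r4⟩ p1 p2 hcr
    have : n' = n + 1 := by omega
    subst this
    have Cc := Cn n
    rw [pos_succ] at r3
    simp only [pos_succ] at r4
    simp only at r2
    rcases hcr with hcr | hcr
    · rcases Y2R V F hcr with ⟨a, β, N, h1, h2, h3⟩ | ⟨h1, h2⟩
      · exact p1 ⟨a, β, N, h1, h2⟩
      · rcases Cc.eq V h1 (by omega) (by omega) with h3 | h3
        · rcases h2 with ⟨h4, h5⟩ | ⟨h4, h5⟩
          · rw [h3] at h5; omega
          · rw [h3] at h4; exact not_B_of_T V h4 (Bp n)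
        · omega
    · rcases Y2L V F hcr with ⟨a, β, N, h1, h2, h3⟩ | ⟨h1, h2, h4⟩ | ⟨h1, h2, h4⟩
      · exact p2 ⟨a, β, N, h1, h2⟩
      · rcases Cc.eq V h1 (by omega) (by omega) with h3 | h3
        · omega
        · rw [h3] at h4; omega
      · rcases Cc.eq V h1 (by omega) (by omega) with h3 | h3
        · rw [h3] at h2; exact not_B_of_T V h2 (Bp n)
        · omega
  · rintro u v ⟨n, rfl, r1, r2⟩ ⟨n', hn', r3, r4⟩ p1 p2 hcr
    have : n' = n := by omega
    subst this
    have Cc := Cn n'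
    simp only at r2 r4
    rcases hcr with hcr | hcr
    · rcases Y2U V F hcr with ⟨a, β, N, h1, h2, h3⟩ | ⟨h1, h2⟩
      · exact p1 ⟨a, β, N, h1, h2⟩
      · rcases Cc.eq V h1 (by omega) (by omega) with h3 | h3
        · rw [h3] at h2; exact not_B_of_T V h2 (Bp n')
        · omega
    · rcases Y2D V F hcr with ⟨a, β, N, h1, h2, h3⟩ | ⟨h1, h2⟩
      · exact p2 ⟨a, β, N, h1, h2⟩
      · rcases Cc.eq V h1 (by omega) (by omega) with h3 | h3
        · omega
        · omega
  · rintro u v ⟨a2, β2, N2, h2, h4⟩ p2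
    exact X1R V h2 h4 (fun h5 => p2 ⟨a2, β2, N2, h2, h5⟩)
  · rintro u v ⟨a2, β2, N2, h2, h4⟩ p2
    exact X1L V h2 h4 (fun h5 => p2 ⟨a2, β2, N2, h2, h5⟩)
  · rintro u v ⟨a2, β2, N2, h2, h4⟩ p2
    exact X1U V h2 h4 (fun h5 => p2 ⟨a2, β2, N2, h2, h5⟩)
  · rintro u v ⟨a2, β2, N2, h2, h4⟩ p2
    exact X1D V h2 h4 (fun h5 => p2 ⟨a2, β2, N2, h2, h5⟩)

lemma band_regT (F : Fn L) {x p q : ℤ} (C : Cns L x p q) (hT : T L x p) (hT' : T L x q) :
    Reg L (bandR x (fun n => pos L x p n + 1) (pos L x q)) (anyP L) := by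
  have hcast : ∀ n : ℕ, x + ((n + 1 : ℕ) : ℤ) = x + n + 1 := by intro n; push_cast; ring
  have Tp : ∀ n : ℕ, T L (x + n) (pos L x p n) := fun n => T_pos V hT (C.hp.al V F n)
  have Tq : ∀ n : ℕ, T L (x + n) (pos L x q n) := fun n => T_pos V hT' (C.hq.al V F n)
  have Cn := fun n => C.fw V F n
  constructor
  · rintro u v ⟨n, rfl, r1, r2⟩ ⟨n', hn', r3, r4⟩ p1 p2 hcr
    have : n' = n + 1 := by omega
    subst this
    have Cc := Cn n
    simp only [pos_succ] at r3
    rw [pos_succ] at r4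
    simp only at r1
    rcases hcr with hcr | hcr
    · rcases Y2R V F hcr with ⟨a, β, N, h1, h2, h3⟩ | ⟨h1, h2⟩
      · exact p1 ⟨a, β, N, h1, h2⟩
      · rcases Cc.eq V h1 (by omega) (by omega) with h3 | h3
        · omega
        · rcases h2 with ⟨h4, h5⟩ | ⟨h4, h5⟩
          · rw [h3] at h4; exact not_B_of_T V (Tq n) h4
          · rw [h3] at h5; omega
    · rcases Y2L V F hcr with ⟨a, β, N, h1, h2, h3⟩ | ⟨h1, h2, h4⟩ | ⟨h1, h2, h4⟩
      · exact p2 ⟨a, β, N, h1, h2⟩
      · rcases Cc.eq V h1 (by omega) (by omega) with h3 | h3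
        · omega
        · rw [h3] at h2; exact not_B_of_T V (Tq n) h2
      · rcases Cc.eq V h1 (by omega) (by omega) with h3 | h3
        · rw [h3] at h4; omega
        · omega
  · rintro u v ⟨n, rfl, r1, r2⟩ ⟨n', hn', r3, r4⟩ p1 p2 hcr
    have : n' = n := by omega
    subst this
    have Cc := Cn n'
    simp only at r1 r3
    rcases hcr with hcr | hcr
    · rcases Y2U V F hcr with ⟨a, β, N, h1, h2, h3⟩ | ⟨h1, h2⟩
      · exact p1 ⟨a, β, N, h1, h2⟩
      · rcases Cc.eq V h1 (by omega) (by omega) with h3 | h3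
        · omega
        · omega
    · rcases Y2D V F hcr with ⟨a, β, N, h1, h2, h3⟩ | ⟨h1, h2⟩
      · exact p2 ⟨a, β, N, h1, h2⟩
      · rcases Cc.eq V h1 (by omega) (by omega) with h3 | h3
        · omega
        · rw [h3] at h2; exact not_B_of_T V (Tq n') h2
  · rintro u v ⟨a2, β2, N2, h2, h4⟩ p2
    exact X1R V h2 h4 (fun h5 => p2 ⟨a2, β2, N2, h2, h5⟩)
  · rintro u v ⟨a2, β2, N2, h2, h4⟩ p2
    exact X1L V h2 h4 (fun h5 => p2 ⟨a2, β2, N2, h2, h5⟩)
  · rintro u v ⟨a2, β2, N2, h2, h4⟩ p2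
    exact X1U V h2 h4 (fun h5 => p2 ⟨a2, β2, N2, h2, h5⟩)
  · rintro u v ⟨a2, β2, N2, h2, h4⟩ p2
    exact X1D V h2 h4 (fun h5 => p2 ⟨a2, β2, N2, h2, h5⟩)

lemma growB (F : Fn L) {x p q : ℤ} (C : Cns L x p q) (hB : B L x p) (hB' : B L x q) :
    ∃ c : ℤ, ∀ n : ℕ, (n : ℤ) ≤ c + 5 * (pos L x q n - pos L x p n) := by
  have G := band_regB V F C hB hB'
  have hcast : ∀ n : ℕ, x + ((n + 1 : ℕ) : ℤ) = x + n + 1 := by intro n; push_cast; ring
  have Bp : ∀ n : ℕ, B L (x + n) (pos L x p n) := fun n => C.hp.B_fw V F hB n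
  have Bq : ∀ n : ℕ, B L (x + n) (pos L x q n) := fun n => C.hq.B_fw V F hB' n
  have Ep : ∀ n : ℕ, ¬ E L (x + n) (pos L x p n) := fun n => (C.hp.fw V F n).nE V F
  have Eq : ∀ n : ℕ, ¬ E L (x + n) (pos L x q n) := fun n => (C.hq.fw V F n).nE V F
  have Bp' : ∀ n : ℕ, B L (x + n + 1) (pos L x p (n + 1)) := fun n => by
    have := Bp (n + 1); rwa [hcast] at this
  have Bq' : ∀ n : ℕ, B L (x + n + 1) (pos L x q (n + 1)) := fun n => by
    have := Bq (n + 1); rwa [hcast] at this
  have Cn := fun n => C.fw V F n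
  set lo := pos L x p with hlo
  set Q := pos L x q with hQ
  set R := bandR x lo (fun n => Q n - 1) with hR
  set P := anyP L with hP
  have slo : ∀ n : ℕ, lo (n + 1) = lo n + dv L (x + n) (lo n) := fun n => rfl
  have sQ : ∀ n : ℕ, Q (n + 1) = Q n + dv L (x + n) (Q n) := fun n => rfl
  have dlo : ∀ n : ℕ, dv L (x + n) (lo n) ≤ 1 ∧ -1 ≤ dv L (x + n) (lo n) :=
    fun n => ⟨dv_le _ _ _, le_dv _ _ _⟩
  have dQ : ∀ n : ℕ, dv L (x + n) (Q n) ≤ 1 ∧ -1 ≤ dv L (x + n) (Q n) :=
    fun n => ⟨dv_le _ _ _, le_dv _ _ _⟩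
  have hgap : ∀ n : ℕ, lo n + 5 ≤ Q n := fun n =>
    sp_lt V (Cn n).hp.1 (Cn n).hq.1 (Cn n).lt
  have Rin : ∀ n : ℕ, ∀ y, lo n ≤ y → y ≤ Q n - 1 → R (x + n) y := fun n y h1 h2 => ⟨n, rfl, h1, h2⟩
  have Rin' : ∀ n : ℕ, ∀ y, lo (n + 1) ≤ y → y ≤ Q (n + 1) - 1 → R (x + n + 1) y :=
    fun n y h1 h2 => ⟨n + 1, (hcast n).symm, h1, h2⟩
  have Pf : ∀ n : ℕ, ∀ y, lo n ≤ y → y ≤ Q n → (y < lo n + 5 ∨ Q n < y + 5) → ¬ P (x + n) y := by
    intro n y h1 h2 h3 hp
    have := (Cn n).far V hp h1 h2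
    omega
  have Pf' : ∀ n : ℕ, ∀ y, lo (n + 1) ≤ y → y ≤ Q (n + 1) →
      (y < lo (n + 1) + 5 ∨ Q (n + 1) < y + 5) → ¬ P (x + n + 1) y := by
    intro n y h1 h2 h3
    rw [← hcast]
    exact Pf (n + 1) y h1 h2 h3
  -- outside rules along the upper strand
  have o1 : ∀ n : ℕ, Q (n + 1) = Q n → hh L P (x + n) (Q n - 1) = 0 := by
    intro n he
    have g1 := hgap n
    have g2 := hgap (n + 1)
    have e1 := slo n
    have e2 := dlo n
    apply hh_zero
    exact (V (x + n) (Q n - 1)).oD1 (by unfold vD; rw [sub_add_cancel]; exact Bq n)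
      (G.eH _ _ (Rin n _ (by omega) (by omega)) (Rin' n _ (by omega) (by omega))
        (Pf n _ (by omega) (by omega) (by omega)) (Pf' n _ (by omega) (by omega) (by omega)))
  have o2 : ∀ n : ℕ, Q (n + 1) = Q n + 1 → hh L P (x + n) (Q n - 1) = 0 ∧
      vv L P (x + n + 1) (Q n - 1) = 0 := by
    intro n he
    have g1 := hgap n
    have g2 := hgap (n + 1)
    have e1 := slo n
    have e2 := dlo n
    have e3 := sQ n
    constructor
    · apply hh_zero
      exact (V (x + n) (Q n - 1)).oD1 (by unfold vD; rw [sub_add_cancel]; exact Bq n)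
        (G.eH _ _ (Rin n _ (by omega) (by omega)) (Rin' n _ (by omega) (by omega))
          (Pf n _ (by omega) (by omega) (by omega)) (Pf' n _ (by omega) (by omega) (by omega)))
    · apply vv_zero
      have := (V (x + n) (Q n)).oR2 (Or.inl ⟨Bq n, Eq n, by omega⟩)
        (G.eV _ _ (Rin' n _ (by omega) (by omega)) (Rin' n _ (by omega) (by omega))
          (Pf' n _ (by omega) (by omega) (by omega)) (Pf' n _ (by omega) (by omega) (by omega)))
      rw [sub_add_cancel]
      exact this.symm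
  have o3 : ∀ n : ℕ, Q (n + 1) = Q n - 1 → hh L P (x + n) (Q n - 2) = 0 ∧
      vv L P (x + n) (Q n - 2) = 0 := by
    intro n he
    have g1 := hgap n
    have g2 := hgap (n + 1)
    have e1 := slo n
    have e2 := dlo n
    have e3 := sQ n
    have e4 : Q n - 1 - 1 = Q n - 2 := by ring
    have e5 : Q n - 2 + 1 = Q n - 1 := by ring
    constructor
    · apply hh_zero
      have := (V (x + n + 1) (Q n - 2)).oD2 (by
          unfold vD; rw [e5, ← he]; exact Bq' n)
        (by
          rw [add_sub_cancel_right]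
          exact (G.eH _ _ (Rin n _ (by omega) (by omega)) (Rin' n _ (by omega) (by omega))
            (Pf n _ (by omega) (by omega) (by omega)) (Pf' n _ (by omega) (by omega) (by omega))))
      rw [add_sub_cancel_right] at this
      exact this.symm
    · apply vv_zero
      have := (V (x + n) (Q n - 1)).oL2 (Or.inl (by
          rw [sub_add_cancel]; exact ⟨Bq n, Eq n, by omega⟩))
        (by
          rw [e4]
          exact (G.eV _ _ (Rin n _ (by omega) (by omega)) (Rin n _ (by omega) (by omega))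
            (Pf n _ (by omega) (by omega) (by omega)) (Pf n _ (by omega) (by omega) (by omega))))
      rw [e4] at this
      rw [e5]
      exact this.symm
  have hint := fun N => integ (a := x) (lo := lo) (hi := fun n => Q n - 1) (v := vv L P)
    (h := hh L P) (ib := 1) (it := 0) N
    (fun n hn => by have := hgap n; omega)
    (fun n hn => by have := slo n; have := dlo n; omega)
    (fun n hn => by have := sQ n; have := dQ n; omega)
    (fun n hn he => by
      have g1 := hgap n
      have g2 := hgap (n + 1)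
      have e := slo n
      exact G.s0 V (Or.inl (Bp n)) (Ep n) (by omega) (Rin n _ (by omega) (by omega))
        (Rin' n _ (by omega) (by omega)) (Pf n _ (by omega) (by omega) (by omega))
        (Pf' n _ (by omega) (by omega) (by omega)))
    (fun n hn he => by
      have g1 := hgap n
      have g2 := hgap (n + 1)
      have e := slo n
      exact G.s1 V (Or.inl (Bp n)) (Ep n) (by omega) (Rin n _ (by omega) (by omega))
        (Rin n _ (by omega) (by omega))
        (Rin' n _ (by omega) (by omega)) (Pf n _ (by omega) (by omega) (by omega))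
        (Pf n _ (by omega) (by omega) (by omega))
        (Pf' n _ (by omega) (by omega) (by omega)))
    (fun n hn he => by
      have g1 := hgap n
      have g2 := hgap (n + 1)
      have e := slo n
      exact G.s2 V (Or.inl (Bp n)) (Ep n) (by omega) (Rin n _ (by omega) (by omega))
        (Rin' n _ (by omega) (by omega))
        (Rin' n _ (by omega) (by omega)) (Pf n _ (by omega) (by omega) (by omega))
        (Pf' n _ (by omega) (by omega) (by omega))
        (Pf' n _ (by omega) (by omega) (by omega)))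
    (fun n hn he => by
      exact o1 n (by omega))
    (fun n hn he => by
      have := o2 n (by omega)
      rw [this.1, this.2]; rfl)
    (fun n hn he => by
      have := o3 n (by omega)
      have e4 : Q n - 1 - 1 = Q n - 2 := by ring
      rw [e4, this.1, this.2]; rfl)
    (fun n hn y c1 c2 c3 c4 =>
      G.sq V (Rin n _ c1 (by omega)) (Rin' n _ c2 (by omega))
        (Rin n _ (by omega) c3) (Rin' n _ (by omega) c4))
  refine ⟨|Ph x lo (vv L P) 1 0 (Q 0 - 1)|, fun n => ?_⟩
  have h1 := (hint n).2 n le_rfl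
  have h2 := Ph_bound5 (a := x) (lo := lo) (v := vv L P) (ib := 1) vv_le5 (n := n)
    (y := Q n - 1) (by have := hgap n; omega)
  rw [h1, abs_le] at h2
  have h3 := le_abs_self (Ph x lo (vv L P) 1 0 (Q 0 - 1))
  have h4 := neg_abs_le (Ph x lo (vv L P) 1 0 (Q 0 - 1))
  omega

lemma growT (F : Fn L) {x p q : ℤ} (C : Cns L x p q) (hT : T L x p) (hT' : T L x q) :
    ∃ c : ℤ, ∀ n : ℕ, (n : ℤ) ≤ c + 5 * (pos L x q n - pos L x p n) := by
  have G := band_regT V F C hT hT'
  have hcast : ∀ n : ℕ, x + ((n + 1 : ℕ) : ℤ) = x + n + 1 := by intro n; push_cast; ring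
  have Tp : ∀ n : ℕ, T L (x + n) (pos L x p n) := fun n => T_pos V hT (C.hp.al V F n)
  have Tq : ∀ n : ℕ, T L (x + n) (pos L x q n) := fun n => T_pos V hT' (C.hq.al V F n)
  have Ep : ∀ n : ℕ, ¬ E L (x + n) (pos L x p n) := fun n => (C.hp.fw V F n).nE V F
  have Eq : ∀ n : ℕ, ¬ E L (x + n) (pos L x q n) := fun n => (C.hq.fw V F n).nE V F
  have Tp' : ∀ n : ℕ, T L (x + n + 1) (pos L x p (n + 1)) := fun n => by
    have := Tp (n + 1); rwa [hcast] at this
  have Cn := fun n => C.fw V F n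
  set lo := pos L x p with hlo
  set Q := pos L x q with hQ
  set R := bandR x (fun n => lo n + 1) Q with hR
  set P := anyP L with hP
  have slo : ∀ n : ℕ, lo (n + 1) = lo n + dv L (x + n) (lo n) := fun n => rfl
  have sQ : ∀ n : ℕ, Q (n + 1) = Q n + dv L (x + n) (Q n) := fun n => rfl
  have dlo : ∀ n : ℕ, dv L (x + n) (lo n) ≤ 1 ∧ -1 ≤ dv L (x + n) (lo n) :=
    fun n => ⟨dv_le _ _ _, le_dv _ _ _⟩
  have dQ : ∀ n : ℕ, dv L (x + n) (Q n) ≤ 1 ∧ -1 ≤ dv L (x + n) (Q n) :=
    fun n => ⟨dv_le _ _ _, le_dv _ _ _⟩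
  have hgap : ∀ n : ℕ, lo n + 5 ≤ Q n := fun n =>
    sp_lt V (Cn n).hp.1 (Cn n).hq.1 (Cn n).lt
  have Rin : ∀ n : ℕ, ∀ y, lo n + 1 ≤ y → y ≤ Q n → R (x + n) y := fun n y h1 h2 => ⟨n, rfl, h1, h2⟩
  have Rin' : ∀ n : ℕ, ∀ y, lo (n + 1) + 1 ≤ y → y ≤ Q (n + 1) → R (x + n + 1) y :=
    fun n y h1 h2 => ⟨n + 1, (hcast n).symm, h1, h2⟩
  have Pf : ∀ n : ℕ, ∀ y, lo n ≤ y → y ≤ Q n → (y < lo n + 5 ∨ Q n < y + 5) → ¬ P (x + n) y := by
    intro n y h1 h2 h3 hp
    have := (Cn n).far V hp h1 h2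
    omega
  have Pf' : ∀ n : ℕ, ∀ y, lo (n + 1) ≤ y → y ≤ Q (n + 1) →
      (y < lo (n + 1) + 5 ∨ Q (n + 1) < y + 5) → ¬ P (x + n + 1) y := by
    intro n y h1 h2 h3
    rw [← hcast]
    exact Pf (n + 1) y h1 h2 h3
  -- outside rules along the lower strand
  have o1 : ∀ n : ℕ, (lo (n + 1) = lo n ∨ lo (n + 1) = lo n - 1) →
      hh L P (x + n) (lo n + 1) = 0 := by
    intro n he
    have g1 := hgap n
    have g2 := hgap (n + 1)
    have e1 := sQ n
    have e2 := dQ n
    apply hh_zero
    exact (V (x + n) (lo n)).oU1 (Tp n)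
      (G.eH _ _ (Rin n _ (by omega) (by omega)) (Rin' n _ (by omega) (by omega))
        (Pf n _ (by omega) (by omega) (by omega)) (Pf' n _ (by omega) (by omega) (by omega)))
  have o2 : ∀ n : ℕ, lo (n + 1) = lo n + 1 → hh L P (x + n) (lo n + 2) = 0 ∧
      vv L P (x + n) (lo n + 1) = 0 := by
    intro n he
    have g1 := hgap n
    have g2 := hgap (n + 1)
    have e1 := sQ n
    have e2 := dQ n
    have e3 := slo n
    have e5 : lo n + 1 + 1 = lo n + 2 := by ring
    constructor
    · apply hh_zero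
      have := (V (x + n + 1) (lo n + 1)).oU2 (by
          unfold vU; rw [← he]; exact Tp' n)
        (by
          rw [add_sub_cancel_right, e5]
          exact (G.eH _ _ (Rin n _ (by omega) (by omega)) (Rin' n _ (by omega) (by omega))
            (Pf n _ (by omega) (by omega) (by omega)) (Pf' n _ (by omega) (by omega) (by omega))))
      rw [add_sub_cancel_right, e5] at this
      exact this.symm
    · apply vv_zero
      exact (V (x + n) (lo n + 1)).oL1 (Or.inr (Or.inl (by
          rw [add_sub_cancel_right]; exact ⟨Tp n, Ep n, by omega⟩)))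
        (G.eV _ _ (Rin n _ (by omega) (by omega)) (Rin n _ (by omega) (by omega))
            (Pf n _ (by omega) (by omega) (by omega)) (Pf n _ (by omega) (by omega) (by omega)))
  have o3 : ∀ n : ℕ, lo (n + 1) = lo n - 1 → vv L P (x + n + 1) (lo n) = 0 := by
    intro n he
    have g1 := hgap n
    have g2 := hgap (n + 1)
    have e1 := sQ n
    have e2 := dQ n
    have e3 := slo n
    apply vv_zero
    exact (V (x + n) (lo n)).oR1 (Or.inr (Or.inl ⟨Tp n, Ep n, by omega⟩))
      (G.eV _ _ (Rin' n _ (by omega) (by omega)) (Rin' n _ (by omega) (by omega))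
          (Pf' n _ (by omega) (by omega) (by omega)) (Pf' n _ (by omega) (by omega) (by omega)))
  have hint := fun N => integ (a := x) (lo := fun n => lo n + 1) (hi := Q) (v := vv L P)
    (h := hh L P) (ib := 0) (it := 1) N
    (fun n hn => by have := hgap n; omega)
    (fun n hn => by have := slo n; have := dlo n; omega)
    (fun n hn => by have := sQ n; have := dQ n; omega)
    (fun n hn he => by
      exact o1 n (by omega))
    (fun n hn he => by
      have := o2 n (by omega)
      have e4 : lo n + 1 + 1 = lo n + 2 := by ring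
      rw [e4, this.1, this.2]; rfl)
    (fun n hn he => by
      have h1 := o1 n (by omega)
      have h2 := o3 n (by omega)
      rw [add_sub_cancel_right, h1, h2]; rfl)
    (fun n hn he => by
      have g1 := hgap n
      have g2 := hgap (n + 1)
      have e := sQ n
      exact G.s0 V (Or.inr (Tq n)) (Eq n) (by omega) (Rin n _ (by omega) (by omega))
        (Rin' n _ (by omega) (by omega)) (Pf n _ (by omega) (by omega) (by omega))
        (Pf' n _ (by omega) (by omega) (by omega)))
    (fun n hn he => by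
      have g1 := hgap n
      have g2 := hgap (n + 1)
      have e := sQ n
      exact G.s3 V (Or.inr (Tq n)) (Eq n) (by omega) (Rin n _ (by omega) (by omega))
        (Rin' n _ (by omega) (by omega))
        (Rin' n _ (by omega) (by omega)) (Pf n _ (by omega) (by omega) (by omega))
        (Pf' n _ (by omega) (by omega) (by omega))
        (Pf' n _ (by omega) (by omega) (by omega)))
    (fun n hn he => by
      have g1 := hgap n
      have g2 := hgap (n + 1)
      have e := sQ n
      exact G.s4 V (Or.inr (Tq n)) (Eq n) (by omega) (Rin n _ (by omega) (by omega))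
        (Rin n _ (by omega) (by omega))
        (Rin' n _ (by omega) (by omega)) (Pf n _ (by omega) (by omega) (by omega))
        (Pf n _ (by omega) (by omega) (by omega))
        (Pf' n _ (by omega) (by omega) (by omega)))
    (fun n hn y c1 c2 c3 c4 =>
      G.sq V (Rin n _ c1 (by omega)) (Rin' n _ c2 (by omega))
        (Rin n _ (by omega) c3) (Rin' n _ (by omega) c4))
  refine ⟨|Ph x (fun n => lo n + 1) (vv L P) 0 0 (Q 0)|, fun n => ?_⟩
  have h1 := (hint n).2 n le_rfl
  have h2 := Ph_bound5 (a := x) (lo := fun n => lo n + 1) (v := vv L P) (ib := 0) vv_le5 (n := n)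
    (y := Q n) (by have := hgap n; omega)
  rw [h1, abs_le] at h2
  have h3 := le_abs_self (Ph x (fun n => lo n + 1) (vv L P) 0 0 (Q 0))
  have h4 := neg_abs_le (Ph x (fun n => lo n + 1) (vv L P) 0 0 (Q 0))
  omega

/-- **No infinite strands.** -/
theorem no_inf (F : Fn L) (nA : ∀ u v, {z : ℤ × ℤ | QA L z.1 z.2 u v}.Finite)
    (nT : ∀ u v, {z : ℤ × ℤ | QT L z.1 z.2 u v}.Finite)
    (nK : ∀ (K : ℕ) u v, {z : ℤ × ℤ | QK K L z.1 z.2 u v}.Finite) (x y : ℤ) :
    ¬ Inf L x y := by
  classical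
  intro hI
  -- there is another infinite strand above
  have habove : ∃ k : ℕ, Inf L x (y + 1 + k) := by
    by_contra hc
    push Not at hc
    have hinj : Function.Injective (fun n : ℕ => ((x, y + n) : ℤ × ℤ)) := by
      intro n m h
      have := congrArg Prod.snd h
      simpa using this
    refine Set.infinite_of_injective_forall_mem hinj
      (fun n => show QT L x (y + n) x y from ⟨rfl, by omega, hI, ?_⟩) (nT x y)
    intro y' hy'
    have := hc (y' - y - 1).toNat
    have e : y + 1 + ((y' - y - 1).toNat : ℤ) = y' := by omega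
    rwa [e] at this
  have C : Cns L x y (y + 1 + (Nat.find habove : ℕ)) := by
    refine ⟨hI, Nat.find_spec habove, by omega, ?_⟩
    intro y' h1 h2 h3
    have := Nat.find_min habove (m := (y' - y - 1).toNat) (by omega)
    have e : y + 1 + ((y' - y - 1).toNat : ℤ) = y' := by omega
    rw [e] at this
    exact this h3
  generalize y + 1 + (Nat.find habove : ℤ) = q at C
  obtain ⟨c, hc⟩ : ∃ c : ℤ, ∀ n : ℕ, (n : ℤ) ≤ c + 5 * (pos L x q n - pos L x y n) := by
    rcases same_kind V F nA C.hp C.hq C.lt with ⟨h1, h2⟩ | ⟨h1, h2⟩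
    · exact growB V F C h1 h2
    · exact growT V F C h1 h2
  have hlt := C.lt
  set K : ℕ := (q - y).toNat with hK
  have h0 : close K L (x + ((0 : ℕ) : ℤ)) (pos L x y 0) := by
    rw [Nat.cast_zero, add_zero, pos_zero]
    exact ⟨q, C.lt, by omega, C.hq⟩
  have hbd : ∀ n : ℕ, close K L (x + n) (pos L x y n) → n ≤ (c + 5 * K).toNat := by
    rintro n ⟨y', h1, h2, h3⟩
    have Cc := C.fw V F n
    have h4 : pos L x q n ≤ y' := by
      by_contra h5
      push Not at h5
      exact Cc.no y' h1 h5 h3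
    have := hc n
    omega
  obtain ⟨m, hm, hmax⟩ : ∃ m : ℕ, close K L (x + m) (pos L x y m) ∧
      ∀ n : ℕ, m < n → ¬ close K L (x + n) (pos L x y n) := by
    refine ⟨Nat.findGreatest (fun n => close K L (x + n) (pos L x y n)) (c + 5 * K).toNat,
      Nat.findGreatest_spec (P := fun n : ℕ => close K L (x + n) (pos L x y n))
        (Nat.zero_le _) h0, ?_⟩
    intro n hn hcl
    have := Nat.le_findGreatest (P := fun n : ℕ => close K L (x + n) (pos L x y n)) (hbd n hcl) hcl
    omega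
  have hIm := hI.fw V F m
  have hinj : Function.Injective
      (fun n : ℕ => ((x + m + n, pos L (x + m) (pos L x y m) n) : ℤ × ℤ)) := by
    intro n m h
    have := congrArg Prod.fst h
    simpa using this
  refine Set.infinite_of_injective_forall_mem hinj
      (fun n => show QK K L (x + m + n) (pos L (x + m) (pos L x y m) n) (x + m) (pos L x y m) from
        ⟨Or.inr ⟨hIm.1, n, rfl, hIm.al V F n, rfl⟩, hIm, hm, ?_⟩) (nK K (x + m) (pos L x y m))
  intro n hn hcl
  apply hmax (m + n) (by omega)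
  rw [pos_add]
  have e : x + ((m + n : ℕ) : ℤ) = x + m + n := by push_cast; ring
  rw [e]
  exact hcl

end

end LCLZ
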