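import Mathlib

/-!
# The locally checkable problem: labels and local rules

Configurations are functions `ℤ → ℤ → Lab`.  A label says whether a site is a marker of a base
strand (`b`), of the rising part of a roof (`l`) or of the falling part of a roof (`r`), whether
the strand starts (`st`) or ends (`en`) there, how the strand continues in the next column (`d`),
and carries a colour `c` modulo 2 and a height `f` modulo 11.
-/

namespace LCLZ

inductive Dr | m | z | p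
deriving DecidableEq

instance : Fintype Dr := ⟨{.m, .z, .p}, by intro x; cases x <;> simp⟩

def Dr.v : Dr → ℤ
  | .m => -1
  | .z => 0
  | .p => 1

structure Lab where
  b : Bool
  l : Bool
  r : Bool
  st : Bool
  en : Bool
  d : Dr
  c : ZMod 2
  f : ZMod 11
deriving DecidableEq

def Lab.toProd (a : Lab) : Bool × Bool × Bool × Bool × Bool × Dr × ZMod 2 × ZMod 11 :=
  (a.b, a.l, a.r, a.st, a.en, a.d, a.c, a.f)

def Lab.ofProd (a : Bool × Bool × Bool × Bool × Bool × Dr × ZMod 2 × ZMod 11) : Lab :=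
  ⟨a.1, a.2.1, a.2.2.1, a.2.2.2.1, a.2.2.2.2.1, a.2.2.2.2.2.1, a.2.2.2.2.2.2.1, a.2.2.2.2.2.2.2⟩

instance : Fintype Lab := Fintype.ofEquiv _
  (⟨Lab.ofProd, Lab.toProd, fun _ => rfl, fun _ => rfl⟩ :
    (Bool × Bool × Bool × Bool × Bool × Dr × ZMod 2 × ZMod 11) ≃ Lab)

abbrev Cfg := ℤ → ℤ → Lab

def B (L : Cfg) (x y : ℤ) : Prop := (L x y).b = true
def Lf (L : Cfg) (x y : ℤ) : Prop := (L x y).l = true
def Rt (L : Cfg) (x y : ℤ) : Prop := (L x y).r = true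
def T (L : Cfg) (x y : ℤ) : Prop := Lf L x y ∨ Rt L x y
def M (L : Cfg) (x y : ℤ) : Prop := B L x y ∨ T L x y
def S (L : Cfg) (x y : ℤ) : Prop := (L x y).st = true
def E (L : Cfg) (x y : ℤ) : Prop := (L x y).en = true
/-- step of the strand to the next column -/
def dv (L : Cfg) (x y : ℤ) : ℤ := (L x y).d.v
def col (L : Cfg) (x y : ℤ) : ZMod 2 := (L x y).c
def ht (L : Cfg) (x y : ℤ) : ZMod 11 := (L x y).f

/-- The edge from `(x,y)` to `(x+1,y)` leaves an island: `(x,y)` inside, `(x+1,y)` outside. -/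
def hR (L : Cfg) (x y : ℤ) : Prop :=
  (B L x y ∧ ¬ E L x y ∧ dv L x y = 1) ∨ (T L x y ∧ ¬ E L x y ∧ dv L x y = -1) ∨
    ∃ m : ℤ, 0 ≤ m ∧ m ≤ 10 ∧ B L x (y - m) ∧ E L x (y - m)

/-- The edge from `(x,y)` to `(x+1,y)` enters an island: `(x,y)` outside, `(x+1,y)` inside. -/
def hL (L : Cfg) (x y : ℤ) : Prop :=
  (B L x (y + 1) ∧ ¬ E L x (y + 1) ∧ dv L x (y + 1) = -1) ∨
  (T L x (y - 1) ∧ ¬ E L x (y - 1) ∧ dv L x (y - 1) = 1) ∨
    ∃ m : ℤ, 0 ≤ m ∧ m ≤ 10 ∧ B L (x + 1) (y - m) ∧ S L (x + 1) (y - m)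

/-- The edge from `(x,y)` to `(x,y+1)` leaves an island. -/
def vU (L : Cfg) (x y : ℤ) : Prop := T L x y
/-- The edge from `(x,y)` to `(x,y+1)` enters an island. -/
def vD (L : Cfg) (x y : ℤ) : Prop := B L x (y + 1)

def hc (L : Cfg) (x y : ℤ) : Prop := hR L x y ∨ hL L x y
def vc (L : Cfg) (x y : ℤ) : Prop := vU L x y ∨ vD L x y

/-- small differences of heights -/
def sm (a : ZMod 11) : Prop := a = 0 ∨ a = 1 ∨ a = 2 ∨ a = -1 ∨ a = -2

/-- The local rules at the site `(x,y)`. -/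
structure Rl (L : Cfg) (x y : ℤ) : Prop where
  bl : B L x y → ¬ Lf L x y
  br : B L x y → ¬ Rt L x y
  lr : Lf L x y → ¬ Rt L x y
  nM : M L x y → ¬ E L x y → M L (x + 1) (y + dv L x y)
  nS : M L x y → ¬ E L x y → ¬ S L (x + 1) (y + dv L x y)
  nB : B L x y → ¬ E L x y → B L (x + 1) (y + dv L x y)
  nL : Lf L x y → ¬ E L x y → T L (x + 1) (y + dv L x y)
  nR : Rt L x y → ¬ E L x y → Rt L (x + 1) (y + dv L x y)
  pv : M L x y → ¬ S L x y → ∃ e : ℤ, -1 ≤ e ∧ e ≤ 1 ∧ M L (x - 1) (y + e) ∧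
    ¬ E L (x - 1) (y + e) ∧ dv L (x - 1) (y + e) = -e
  sp : M L x y → ∀ m : ℤ, 1 ≤ m → m ≤ 4 → ¬ M L x (y + m)
  sB : B L x y → S L x y → Lf L x (y + 10) ∧ S L x (y + 10) ∧
    ∀ m : ℤ, 1 ≤ m → m ≤ 9 → ¬ M L x (y + m)
  sT : T L x y → S L x y → B L x (y - 10) ∧ S L x (y - 10)
  eB : B L x y → E L x y → Rt L x (y + 10) ∧ E L x (y + 10) ∧
    ∀ m : ℤ, 1 ≤ m → m ≤ 9 → ¬ M L x (y + m)
  eT : T L x y → E L x y → B L x (y - 10) ∧ E L x (y - 10)
  es : B L x y → E L x y → ∀ n : ℤ, -15 ≤ n → n ≤ 15 → B L (x + 1) (y + n) →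
    ¬ S L (x + 1) (y + n)
  slB : B L x y → ¬ E L x y → ¬ E L (x + 1) (y + dv L x y) →
    |dv L x y + dv L (x + 1) (y + dv L x y)| ≤ 1
  slL : Lf L x y → 0 ≤ dv L x y
  slL3 : Lf L x y → Lf L (x + 1) (y + dv L x y) →
    Lf L (x + 2) (y + dv L x y + dv L (x + 1) (y + dv L x y)) →
    2 ≤ dv L x y + dv L (x + 1) (y + dv L x y) +
      dv L (x + 2) (y + dv L x y + dv L (x + 1) (y + dv L x y))
  slR : Rt L x y → ¬ E L x y → dv L x y ≤ 0
  slR3 : Rt L x y → ¬ E L x y → ¬ E L (x + 1) (y + dv L x y) →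
    ¬ E L (x + 2) (y + dv L x y + dv L (x + 1) (y + dv L x y)) →
    dv L x y + dv L (x + 1) (y + dv L x y) +
      dv L (x + 2) (y + dv L x y + dv L (x + 1) (y + dv L x y)) ≤ -2
  cH : ¬ hc L x y → col L (x + 1) y = col L x y + 1
  cV : ¬ vc L x y → col L x (y + 1) = col L x y + 1
  fH : ¬ hc L x y → sm (ht L (x + 1) y - ht L x y)
  fV : ¬ vc L x y → sm (ht L x (y + 1) - ht L x y)
  fN : M L x y → ¬ E L x y → ht L (x + 1) (y + dv L x y) = ht L x y + 1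
  fE : B L x y → S L x y ∨ E L x y → ∀ m : ℤ, 0 ≤ m → m ≤ 10 → ht L x (y + m) = ht L x y
  oR1 : hR L x y → ¬ vc L (x + 1) y → ht L (x + 1) (y + 1) = ht L (x + 1) y
  oR2 : hR L x y → ¬ vc L (x + 1) (y - 1) → ht L (x + 1) (y - 1) = ht L (x + 1) y
  oL1 : hL L x y → ¬ vc L x y → ht L x (y + 1) = ht L x y
  oL2 : hL L x y → ¬ vc L x (y - 1) → ht L x (y - 1) = ht L x y
  oU1 : vU L x y → ¬ hc L x (y + 1) → ht L (x + 1) (y + 1) = ht L x (y + 1)
  oU2 : vU L x y → ¬ hc L (x - 1) (y + 1) → ht L (x - 1) (y + 1) = ht L x (y + 1)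
  oD1 : vD L x y → ¬ hc L x y → ht L (x + 1) y = ht L x y
  oD2 : vD L x y → ¬ hc L (x - 1) y → ht L (x - 1) y = ht L x y

lemma dv_le (L : Cfg) (x y : ℤ) : dv L x y ≤ 1 := by
  unfold dv; cases (L x y).d <;> simp [Dr.v]

lemma le_dv (L : Cfg) (x y : ℤ) : -1 ≤ dv L x y := by
  unfold dv; cases (L x y).d <;> simp [Dr.v]

end LCLZ
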