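import Pool.Agent.helper13.LCL.Band
import Pool.Agent.helper13.LCL.Area2
import Pool.Agent.helper88.LCL.Parity

/-!
# Deterministic conclusion: a nice valid configuration has a global parity
-/

namespace LCLZ

theorem det {L : Cfg} (V : ∀ x y, Rl L x y) (hN : Nice L) :
    (∃ x y, Out L x y) ∧ ∃ p : ZMod 2, ∀ x y, Out L x y → col L x y + x + y = p := by
  have F : Fn L := Fn_of V hN.nS hN.nE
  refine parity V F (fun x y hM => ?_) hN.nI
  by_contra hf
  exact no_inf V F hN.nA hN.nT hN.nK x y ⟨hM, hf⟩

end LCLZ
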