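import Pool.Agent.helper13.LCL.Nice

/-!
# Finite and infinite strands
-/

namespace LCLZ

variable {L : Cfg}

section
variable (V : ∀ x y, Rl L x y)
include V

/-- going back along a strand either meets the start or never stops -/
lemma back_or {x y : ℤ} (h : M L x y) (n : ℕ) : fin L x y ∨
    ∃ y0, M L (x - n) y0 ∧ al L (x - n) y0 n ∧ pos L (x - n) y0 n = y := by
  induction n with
  | zero => exact Or.inr ⟨y, by simpa using h, by simp, rfl⟩
  | succ n ih =>
    rcases ih with h1 | ⟨y0, h1, h2, h3⟩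
    · exact Or.inl h1
    · by_cases hS : S L (x - n) y0
      · exact Or.inl ⟨n, y0, h1, hS, h2, h3⟩
      · right
        obtain ⟨e, -, -, hM, hE, hd⟩ := (V _ _).pv h1 hS
        have e1 : x - (n : ℤ) - 1 = x - ((n + 1 : ℕ) : ℤ) := by push_cast; ring
        rw [e1] at hM hE hd
        have e2 : x - ((n + 1 : ℕ) : ℤ) + 1 = x - n := by push_cast; ring
        have e3 : y0 + e + dv L (x - ((n + 1 : ℕ) : ℤ)) (y0 + e) = y0 := by rw [hd]; ring
        refine ⟨y0 + e, hM, ?_, ?_⟩
        · rw [add_comm n 1, al_add]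
          refine ⟨?_, ?_⟩
          · intro m hm
            have : m = 0 := by omega
            subst this
            rw [add_comm 1 n]
            simpa using hE
          · rw [add_comm 1 n, pos_succ]
            simp only [pos_zero, Nat.cast_zero, add_zero, Nat.cast_one]
            rw [e2, e3]; exact h2
        · rw [pos_succ', e2, e3]; exact h3

lemma fin_back {x y : ℤ} (h : M L x y) {n : ℕ} (ha : al L x y n)
    (hf : fin L (x + n) (pos L x y n)) : fin L x y := by
  obtain ⟨m, y0, hM, hS, hal, hp⟩ := hf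
  rcases Nat.lt_or_ge m n with hlt | hge
  · exfalso
    obtain ⟨k, hk, hk1⟩ : ∃ k : ℕ, n = k + m ∧ 1 ≤ k := ⟨n - m, by omega, by omega⟩
    have e1 : x + (n : ℤ) - m = x + k := by rw [hk]; push_cast; ring
    rw [e1] at hM hS hal hp
    rw [hk, al_add] at ha
    have h1 := M_pos V h ha.1
    have h2 : pos L x y k = y0 := by
      apply pos_inj V h1 hM ha.2 hal
      rw [hp, hk, pos_add]
    have := not_S_pos V h hk1 ha.1
    rw [h2] at this
    exact this hS
  · obtain ⟨k, rfl⟩ : ∃ k : ℕ, m = k + n := ⟨m - n, by omega⟩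
    have e1 : x + (n : ℤ) - ((k + n : ℕ) : ℤ) = x - k := by push_cast; ring
    rw [e1] at hM hS hal hp
    rw [al_add] at hal
    have h1 := M_pos V hM hal.1
    have e2 : x - (k : ℤ) + k = x := by ring
    rw [e2] at h1
    refine ⟨k, y0, hM, hS, hal.1, ?_⟩
    apply pos_inj V h1 h (n := n) _ ha
    · rw [← hp, pos_add, e2]
    · have := hal.2; rwa [e2] at this

theorem Fn_of (nS : ∀ u v, {z : ℤ × ℤ | QS L z.1 z.2 u v}.Finite)
    (nE : ∀ u v, {z : ℤ × ℤ | QE L z.1 z.2 u v}.Finite) : Fn L := by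
  constructor
  · intro x y hM hS
    by_contra hc
    push Not at hc
    have hal : ∀ n, al L x y n := by
      intro n
      induction n with
      | zero => simp
      | succ n ih => exact al_succ.2 ⟨ih, hc n ih⟩
    have hinj : Function.Injective (fun n : ℕ => ((x + n, pos L x y n) : ℤ × ℤ)) := by
      intro n m h
      have := congrArg Prod.fst h
      simpa using this
    exact Set.infinite_of_injective_forall_mem hinj
      (fun n => show QS L (x + n) (pos L x y n) x y from ⟨hM, hS, n, rfl, hal n, rfl⟩) (nS x y)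
  · intro x y hM hE
    by_contra hc
    have hnf : ¬ fin L x y := by
      rintro ⟨n, y0, h1, h2, h3, h4⟩
      exact hc ⟨n, y0, h1, h2, h3, h4⟩
    have hb : ∀ n : ℕ, ∃ y0, M L (x - n) y0 ∧ al L (x - n) y0 n ∧ pos L (x - n) y0 n = y :=
      fun n => (back_or V hM n).resolve_left hnf
    choose f hf using hb
    have hinj : Function.Injective (fun n : ℕ => ((x - n, f n) : ℤ × ℤ)) := by
      intro n m h
      have := congrArg Prod.fst h
      simpa using this
    exact Set.infinite_of_injective_forall_mem hinj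
      (fun n => show QE L (x - n) (f n) x y from
        ⟨(hf n).1, hE, n, by ring, (hf n).2.1, (hf n).2.2⟩) (nE x y)

/-! ### infinite strands -/

lemma Inf.al (F : Fn L) {x y : ℤ} (h : Inf L x y) (n : ℕ) : al L x y n := by
  induction n with
  | zero => simp
  | succ n ih =>
    refine al_succ.2 ⟨ih, ?_⟩
    intro hE
    exact h.2 (fin_back V h.1 ih (fin_of_E V F (M_pos V h.1 ih) hE))

lemma Inf.nE (F : Fn L) {x y : ℤ} (h : Inf L x y) : ¬ E L x y := by
  have := h.al V F 1 0 one_pos
  simpa using this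

lemma Inf.fw (F : Fn L) {x y : ℤ} (h : Inf L x y) (n : ℕ) : Inf L (x + n) (pos L x y n) :=
  ⟨M_pos V h.1 (h.al V F n), fun hf => h.2 (fin_back V h.1 (h.al V F n) hf)⟩

lemma Inf.bw {x y : ℤ} (h : Inf L x y) (n : ℕ) :
    ∃ y0, Inf L (x - n) y0 ∧ pos L (x - n) y0 n = y := by
  rcases back_or V h.1 n with h1 | ⟨y0, h1, h2, h3⟩
  · exact absurd h1 h.2
  · refine ⟨y0, ⟨h1, ?_⟩, h3⟩
    rintro ⟨m, y1, g1, g2, g3, g4⟩
    apply h.2
    have e1 : x - (n : ℤ) - m = x - ((m + n : ℕ) : ℤ) := by push_cast; ring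
    rw [e1] at g1 g2 g3 g4
    have e2 : x - ((m + n : ℕ) : ℤ) + m = x - n := by push_cast; ring
    refine ⟨m + n, y1, g1, g2, ?_, ?_⟩
    · rw [al_add, e2, g4]; exact ⟨g3, h2⟩
    · rw [pos_add, e2, g4]; exact h3

/-- markers inside a finite island are finite -/
lemma fin_in {a β : ℤ} {N : ℕ} (h : Isl L a β N) {x y : ℤ} (hin : inI L a β N x y)
    (hM : M L x y) : fin L x y := by
  obtain ⟨n, hn, rfl, hl, hh⟩ := hin
  rcases eq_or_lt_of_le hl with h1 | h1
  · have e : a + (n : ℤ) - n = a := by ring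
    exact ⟨n, β, by rw [e]; exact h.Mb, by rw [e]; exact h.s, by rw [e]; exact al_mono hn h.la,
      by rw [e]; exact h1⟩
  rcases eq_or_lt_of_le hh with h2 | h2
  · have e : a + (n : ℤ) - n = a := by ring
    exact ⟨n, β + 10, by rw [e]; exact h.Mh V, by rw [e]; exact ((V a β).sB h.b h.s).2.1,
      by rw [e]; exact al_mono hn h.ha, by rw [e]; exact h2.symm⟩
  rcases back_or V hM n with h3 | ⟨y0, h3, h4, h5⟩
  · exact h3
  · exfalso
    have e : a + (n : ℤ) - n = a := by ring
    rw [e] at h3 h4 h5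
    have c1 : β < y0 := order_back V h.Mb h3 (al_mono hn h.la) h4 (by omega)
    have c2 : y0 < β + 10 := order_back V h3 (h.Mh V) h4 (al_mono hn h.ha) (by omega)
    exact ((V a β).sB h.b h.s).2.2 (y0 - β) (by omega) (by omega) (by rw [add_sub_cancel]; exact h3)

/-- markers of islands are finite -/
lemma fin_lo {a β : ℤ} {N : ℕ} (h : Isl L a β N) {n : ℕ} (hn : n ≤ N) :
    fin L (a + n) (pos L a β n) := by
  apply fin_in V h _ (Or.inl (h.Mlo V hn))
  have := h.gap V hn
  exact ⟨n, hn, rfl, le_rfl, by omega⟩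

lemma fin_hi {a β : ℤ} {N : ℕ} (h : Isl L a β N) {n : ℕ} (hn : n ≤ N) :
    fin L (a + n) (pos L a (β + 10) n) := by
  apply fin_in V h _ (Or.inr (h.Mhi V hn))
  have := h.gap V hn
  exact ⟨n, hn, rfl, by omega, le_rfl⟩

/-- An infinite strand in a column of an island passes below or above it. -/
lemma Inf.side {a β : ℤ} {N : ℕ} (h : Isl L a β N) {n : ℕ} (hn : n ≤ N) {y : ℤ}
    (hI : Inf L (a + n) y) : y + 5 ≤ pos L a β n ∨ pos L a (β + 10) n + 5 ≤ y := by
  have h1 : Inf L (a + n) y := hI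
  by_contra hc
  push Not at hc
  obtain ⟨c1, c2⟩ := hc
  have hnot : ¬ (pos L a β n ≤ y ∧ y ≤ pos L a (β + 10) n) := by
    rintro ⟨g1, g2⟩
    exact hI.2 (fin_in V h ⟨n, hn, rfl, g1, g2⟩ hI.1)
  have Ml : M L (a + n) (pos L a β n) := Or.inl (h.Mlo V hn)
  have Mh : M L (a + n) (pos L a (β + 10) n) := Or.inr (h.Mhi V hn)
  rcases lt_or_ge y (pos L a β n) with g | g
  · have := sp_lt V hI.1 Ml g; omega
  · rcases lt_or_ge (pos L a (β + 10) n) y with g' | g'
    · have := sp_lt V Mh hI.1 g'; omega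
    · exact hnot ⟨g, g'⟩

end

end LCLZ
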