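import Pool.Agent.helper13.LCL.Area

/-!
# There are no infinite strands
-/

namespace LCLZ

variable {L : Cfg}

section
variable (V : ∀ x y, Rl L x y)
include V

/-! ### crossing edges at infinite strands -/

lemma Y2R (F : Fn L) {x y : ℤ} (h : hR L x y) :
    (∃ a β N, Isl L a β N ∧ inI L a β N x y ∧ ¬ inI L a β N (x + 1) y) ∨
      (Inf L x y ∧ ((B L x y ∧ dv L x y = 1) ∨ (T L x y ∧ dv L x y = -1))) := by
  by_cases hm : M L x y → fin L x y
  · exact Or.inl (X2R V F hm h)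
  · push Not at hm
    rcases h with ⟨hb, he, hd⟩ | ⟨ht, he, hd⟩ | ⟨m, h0, h10, hb, he⟩
    · exact Or.inr ⟨hm, Or.inl ⟨hb, hd⟩⟩
    · exact Or.inr ⟨hm, Or.inr ⟨ht, hd⟩⟩
    · obtain ⟨a, β, N, n, hI, hn, hx, hp⟩ := fin_B V F hb (fin_of_E V F (Or.inl hb) he)
      have : n = N := by
        refine end_unique (al_mono hn hI.la) ?_ hI.la hI.le
        rw [← hx, hp]; exact he
      subst this
      left
      refine ⟨a, β, n, hI, ⟨n, le_rfl, hx, by omega, ?_⟩, ?_⟩
      · have := hI.eq; omega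
      · rintro ⟨k, hk, hx', -, -⟩
        omega

lemma Y2L (F : Fn L) {x y : ℤ} (h : hL L x y) :
    (∃ a β N, Isl L a β N ∧ inI L a β N (x + 1) y ∧ ¬ inI L a β N x y) ∨
      (Inf L x (y + 1) ∧ B L x (y + 1) ∧ dv L x (y + 1) = -1) ∨
      (Inf L x (y - 1) ∧ T L x (y - 1) ∧ dv L x (y - 1) = 1) := by
  rcases h with ⟨hb, he, hd⟩ | ⟨ht, he, hd⟩ | ⟨m, h0, h10, hb, hs⟩
  · by_cases hf : fin L x (y + 1)
    · refine Or.inl (X2L V F (fun _ => hf) (fun hM => ?_) (Or.inl ⟨hb, he, hd⟩))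
      have := sp_lt V hM (Or.inl hb) (by omega)
      omega
    · exact Or.inr (Or.inl ⟨⟨Or.inl hb, hf⟩, hb, hd⟩)
  · by_cases hf : fin L x (y - 1)
    · refine Or.inl (X2L V F (fun hM => ?_) (fun _ => hf) (Or.inr (Or.inl ⟨ht, he, hd⟩)))
      have := sp_lt V (Or.inr ht) hM (by omega)
      omega
    · exact Or.inr (Or.inr ⟨⟨Or.inr ht, hf⟩, ht, hd⟩)
  · obtain ⟨N, hI⟩ := exists_isl V F hb hs
    refine Or.inl ⟨x + 1, y - m, N, hI, ⟨0, Nat.zero_le _, by simp, by simp; omega,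
      by simp; omega⟩, ?_⟩
    rintro ⟨k, hk, hx', -, -⟩
    omega

lemma Y2U (F : Fn L) {x y : ℤ} (h : vU L x y) :
    (∃ a β N, Isl L a β N ∧ inI L a β N x y ∧ ¬ inI L a β N x (y + 1)) ∨
      (Inf L x y ∧ T L x y) := by
  by_cases hf : fin L x y
  · exact Or.inl (X2U V F (fun _ => hf) h)
  · exact Or.inr ⟨⟨Or.inr h, hf⟩, h⟩

lemma Y2D (F : Fn L) {x y : ℤ} (h : vD L x y) :
    (∃ a β N, Isl L a β N ∧ inI L a β N x (y + 1) ∧ ¬ inI L a β N x y) ∨
      (Inf L x (y + 1) ∧ B L x (y + 1)) := by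
  by_cases hf : fin L x (y + 1)
  · exact Or.inl (X2D V F (fun _ => hf) h)
  · exact Or.inr ⟨⟨Or.inl h, hf⟩, h⟩

end

/-- two consecutive infinite strands -/
structure Cns (L : Cfg) (x p q : ℤ) : Prop where
  hp : Inf L x p
  hq : Inf L x q
  lt : p < q
  no : ∀ y, p < y → y < q → ¬ Inf L x y

section
variable (V : ∀ x y, Rl L x y)
include V

lemma Cns.fw (F : Fn L) {x p q : ℤ} (C : Cns L x p q) (n : ℕ) :
    Cns L (x + n) (pos L x p n) (pos L x q n) := by
  have h1 := C.hp.al V F n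
  have h2 := C.hq.al V F n
  refine ⟨C.hp.fw V F n, C.hq.fw V F n, ?_, ?_⟩
  · have := order V C.hp.1 C.hq.1 C.lt h1 h2
    omega
  · intro y c1 c2 hI
    obtain ⟨y0, g1, g2⟩ := hI.bw V n
    rw [add_sub_cancel_right] at g1 g2
    have g3 := g1.al V F n
    exact C.no y0 (order_back V C.hp.1 g1.1 h1 g3 (by omega))
      (order_back V g1.1 C.hq.1 g3 h2 (by omega)) g1

/-- an infinite marker near the band is on one of its two boundary strands -/
lemma Cns.eq {x p q : ℤ} (C : Cns L x p q) {y : ℤ} (h : Inf L x y) (h1 : p - 1 ≤ y)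
    (h2 : y ≤ q + 1) : y = p ∨ y = q := by
  rcases lt_trichotomy y p with g | g | g
  · have := sp_lt V h.1 C.hp.1 g; omega
  · exact Or.inl g
  · rcases lt_trichotomy y q with g' | g' | g'
    · exact absurd h (C.no y g g')
    · exact Or.inr g'
    · have := sp_lt V C.hq.1 h.1 g'; omega

/-- islands are not close to infinite strands -/
lemma Cns.far {x p q : ℤ} (C : Cns L x p q) {y : ℤ}
    (hP : ∃ a β N, Isl L a β N ∧ inI L a β N x y) (h1 : p ≤ y) (h2 : y ≤ q) :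
    p + 5 ≤ y ∧ y + 5 ≤ q := by
  obtain ⟨a, β, N, hI, n, hn, rfl, hl, hh⟩ := hP
  have g1 := C.hp.side V hI hn
  have g2 := C.hq.side V hI hn
  omega

/-! ### kinds -/

lemma no_apex (F : Fn L) (nA : ∀ u v, {z : ℤ × ℤ | QA L z.1 z.2 u v}.Finite) {x y : ℤ}
    (h : Inf L x y) : ¬ apex L x y := by
  intro ha
  have hinj : Function.Injective (fun n : ℕ => ((x + n, pos L x y n) : ℤ × ℤ)) := by
    intro n m h
    have := congrArg Prod.fst h
    simpa using this
  exact Set.infinite_of_injective_forall_mem hinj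
    (fun n => show QA L (x + n) (pos L x y n) x y from
      ⟨Or.inr ⟨h.1, n, rfl, h.al V F n, rfl⟩, ha⟩) (nA x y)

lemma Inf.Lf_fw (F : Fn L) (nA : ∀ u v, {z : ℤ × ℤ | QA L z.1 z.2 u v}.Finite) {x y : ℤ}
    (h : Inf L x y) (hl : Lf L x y) (n : ℕ) : Lf L (x + n) (pos L x y n) := by
  induction n with
  | zero => simpa using hl
  | succ n ih =>
    have h1 := h.fw V F n
    have h2 := h1.nE V F
    have h3 := (V _ _).nL ih h2
    have h4 := no_apex V F nA h1
    have e : x + ((n + 1 : ℕ) : ℤ) = x + n + 1 := by push_cast; ring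
    rw [e, pos_succ]
    rcases h3 with h3 | h3
    · exact h3
    · exact absurd ⟨ih, h2, h3⟩ h4

lemma Inf.Rt_fw (F : Fn L) {x y : ℤ} (h : Inf L x y) (hl : Rt L x y) (n : ℕ) :
    Rt L (x + n) (pos L x y n) := by
  induction n with
  | zero => simpa using hl
  | succ n ih =>
    have h1 := h.fw V F n
    have h3 := (V _ _).nR ih (h1.nE V F)
    have e : x + ((n + 1 : ℕ) : ℤ) = x + n + 1 := by push_cast; ring
    rw [e, pos_succ]
    exact h3

lemma Inf.B_fw (F : Fn L) {x y : ℤ} (h : Inf L x y) (hl : B L x y) (n : ℕ) :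
    B L (x + n) (pos L x y n) := B_pos V hl (h.al V F n)

/-- backwards, keeping the kind -/
lemma Inf.bw_kind (F : Fn L) (nA : ∀ u v, {z : ℤ × ℤ | QA L z.1 z.2 u v}.Finite) {x y : ℤ}
    (h : Inf L x y) (n : ℕ) :
    ∃ y0, Inf L (x - n) y0 ∧ pos L (x - n) y0 n = y ∧ (B L x y → B L (x - n) y0) ∧
      (Lf L x y → Lf L (x - n) y0) ∧ (Rt L x y → Rt L (x - n) y0) := by
  obtain ⟨y0, h1, h2⟩ := h.bw V n
  have e : x - (n : ℤ) + n = x := by ring
  have kB : B L (x - n) y0 → B L x y := by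
    intro hk; have := h1.B_fw V F hk n; rwa [e, h2] at this
  have kL : Lf L (x - n) y0 → Lf L x y := by
    intro hk; have := h1.Lf_fw V F nA hk n; rwa [e, h2] at this
  have kR : Rt L (x - n) y0 → Rt L x y := by
    intro hk; have := h1.Rt_fw V F hk n; rwa [e, h2] at this
  have r1 := (V x y).bl
  have r2 := (V x y).br
  have r3 := (V x y).lr
  refine ⟨y0, h1, h2, ?_, ?_, ?_⟩
  · intro hk
    rcases h1.1 with g | g | g
    · exact g
    · exact absurd (kL g) (r1 hk)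
    · exact absurd (kR g) (r2 hk)
  · intro hk
    rcases h1.1 with g | g | g
    · exact absurd hk (r1 (kB g))
    · exact g
    · exact absurd (kR g) (r3 hk)
  · intro hk
    rcases h1.1 with g | g | g
    · exact absurd hk (r2 (kB g))
    · exact absurd hk (r3 (kL g))
    · exact g

/-- slopes of infinite strands -/
lemma Inf.slB (F : Fn L) {x y : ℤ} (h : Inf L x y) (hk : B L x y) (n : ℕ) :
    2 * (pos L x y n - y) ≤ n + 1 ∧ -((n : ℤ) + 1) ≤ 2 * (pos L x y n - y) := by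
  have := slopeB V hk (h.al V F n)
  have h1 := le_abs_self (pos L x y n - y)
  have h2 := neg_abs_le (pos L x y n - y)
  omega

lemma Inf.slL (F : Fn L) (nA : ∀ u v, {z : ℤ × ℤ | QA L z.1 z.2 u v}.Finite) {x y : ℤ}
    (h : Inf L x y) (hk : Lf L x y) (n : ℕ) : 2 * (n : ℤ) - 4 ≤ 3 * (pos L x y n - y) :=
  slopeL V (h.al V F n) (fun m _ => h.Lf_fw V F nA hk m)

lemma Inf.slR (F : Fn L) {x y : ℤ}
    (h : Inf L x y) (hk : Rt L x y) (n : ℕ) : 3 * (pos L x y n - y) ≤ -2 * (n : ℤ) + 4 :=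
  slopeR V hk (h.al V F n)

/-- all infinite strands have the same kind -/
lemma same_kind (F : Fn L) (nA : ∀ u v, {z : ℤ × ℤ | QA L z.1 z.2 u v}.Finite) {x p q : ℤ}
    (hp : Inf L x p) (hq : Inf L x q) (hlt : p < q) :
    (B L x p ∧ B L x q) ∨ (T L x p ∧ T L x q) := by
  obtain ⟨g, hg⟩ : ∃ g : ℕ, q - p = g := ⟨(q - p).toNat, by omega⟩
  set n : ℕ := 6 * g + 11 with hn
  have hn' : (n : ℤ) = 6 * g + 11 := by rw [hn]; push_cast; ring
  have o := order V hp.1 hq.1 hlt (hp.al V F n) (hq.al V F n)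
  obtain ⟨p0, a1, a2, a3, a4, a5⟩ := hp.bw_kind V F nA n
  obtain ⟨q0, b1, b2, b3, b4, b5⟩ := hq.bw_kind V F nA n
  have o' := order_back V a1.1 b1.1 (a1.al V F n) (b1.al V F n) (by rw [a2, b2]; exact hlt)
  rcases hp.1 with kp | kp | kp <;> rcases hq.1 with kq | kq | kq
  · exact Or.inl ⟨kp, kq⟩
  · exfalso
    have s1 := a1.slB V F (a3 kp) n
    have s2 := b1.slL V F nA (b4 kq) n
    omega
  · exfalso
    have s1 := hp.slB V F kp n
    have s2 := hq.slR V F kq n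
    omega
  · exfalso
    have s1 := hp.slL V F nA kp n
    have s2 := hq.slB V F kq n
    omega
  · exact Or.inr ⟨Or.inl kp, Or.inl kq⟩
  · exfalso
    have s1 := hp.slL V F nA kp n
    have s2 := hq.slR V F kq n
    omega
  · exfalso
    have s1 := a1.slR V F (a5 kp) n
    have s2 := b1.slB V F (b3 kq) n
    omega
  · exfalso
    have s1 := a1.slR V F (a5 kp) n
    have s2 := b1.slL V F nA (b4 kq) n
    omega
  · exact Or.inr ⟨Or.inr kp, Or.inr kq⟩

end

end LCLZ
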