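import Pool.Agent.helper13.LCL.Fin

/-!
# Integration of closed forms in a region between two curves
-/

namespace LCLZ

/-- vertical integral over the region above the curve `lo` -/
def Ph (a : ℤ) (lo : ℕ → ℤ) (v : ℤ → ℤ → ℤ) (ib : ℤ) (n : ℕ) (y : ℤ) : ℤ :=
  ib * n + ∑ i ∈ Finset.range (y - lo n).toNat, v (a + n) (lo n + i)

section
variable {a : ℤ} {lo hi : ℕ → ℤ} {v h : ℤ → ℤ → ℤ} {ib it : ℤ}

lemma Ph_lo (n : ℕ) : Ph a lo v ib n (lo n) = ib * n := by
  simp [Ph]

lemma Ph_succ {n : ℕ} {y : ℤ} (hy : lo n ≤ y) :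
    Ph a lo v ib n (y + 1) = Ph a lo v ib n y + v (a + n) y := by
  unfold Ph
  have h1 : (y + 1 - lo n).toNat = (y - lo n).toNat + 1 := by omega
  rw [h1, Finset.sum_range_succ, add_assoc]
  congr 2
  have h2 : ((y - lo n).toNat : ℤ) = y - lo n := Int.toNat_of_nonneg (by omega)
  rw [h2, add_sub_cancel]

lemma Ph_bound (hv : ∀ x y, |v x y| ≤ 2) {n : ℕ} {y : ℤ} (hy : lo n ≤ y) :
    |Ph a lo v ib n y - ib * n| ≤ 2 * (y - lo n) := by
  obtain ⟨k, rfl⟩ : ∃ k : ℕ, y = lo n + k := ⟨(y - lo n).toNat, by omega⟩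
  clear hy
  induction k with
  | zero => simp [Ph_lo]
  | succ k ih =>
    have h1 := Ph_succ (a := a) (v := v) (ib := ib) (lo := lo) (n := n) (y := lo n + k) (by omega)
    have e : lo n + ((k + 1 : ℕ) : ℤ) = lo n + k + 1 := by push_cast; ring
    rw [e, h1]
    have h2 := hv (a + n) (lo n + k)
    rw [abs_le] at *
    constructor <;> omega

theorem integ (N : ℕ) (hgap : ∀ n ≤ N, lo n + 2 ≤ hi n)
    (slo : ∀ n < N, lo (n + 1) ≤ lo n + 1 ∧ lo n ≤ lo (n + 1) + 1)
    (shi : ∀ n < N, hi (n + 1) ≤ hi n + 1 ∧ hi n ≤ hi (n + 1) + 1)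
    (b0 : ∀ n < N, lo (n + 1) = lo n → h (a + n) (lo n) = ib)
    (b1 : ∀ n < N, lo (n + 1) = lo n + 1 → v (a + n) (lo n) + h (a + n) (lo n + 1) = ib)
    (b2 : ∀ n < N, lo (n + 1) = lo n - 1 → h (a + n) (lo n) - v (a + n + 1) (lo n - 1) = ib)
    (t0 : ∀ n < N, hi (n + 1) = hi n → h (a + n) (hi n) = it)
    (t1 : ∀ n < N, hi (n + 1) = hi n + 1 → h (a + n) (hi n) + v (a + n + 1) (hi n) = it)
    (t2 : ∀ n < N, hi (n + 1) = hi n - 1 → h (a + n) (hi n - 1) - v (a + n) (hi n - 1) = it)
    (sq : ∀ n < N, ∀ y, lo n ≤ y → lo (n + 1) ≤ y → y + 1 ≤ hi n → y + 1 ≤ hi (n + 1) →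
      v (a + n) y + h (a + n) (y + 1) = h (a + n) y + v (a + n + 1) y) :
    (∀ n < N, ∀ y, lo n ≤ y → lo (n + 1) ≤ y → y ≤ hi n → y ≤ hi (n + 1) →
      Ph a lo v ib (n + 1) y - Ph a lo v ib n y = h (a + n) y) ∧
    (∀ n ≤ N, Ph a lo v ib n (hi n) = Ph a lo v ib 0 (hi 0) + it * n) := by
  have hcast : ∀ n : ℕ, a + ((n + 1 : ℕ) : ℤ) = a + n + 1 := by intro n; push_cast; ring
  have key : ∀ n < N, ∀ y, lo n ≤ y → lo (n + 1) ≤ y → y ≤ hi n → y ≤ hi (n + 1) →
      Ph a lo v ib (n + 1) y - Ph a lo v ib n y = h (a + n) y := by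
    intro n hn y c1 c2 c3 c4
    obtain ⟨k, hk⟩ : ∃ k : ℕ, y = max (lo n) (lo (n + 1)) + k := ⟨(y - max (lo n) (lo (n + 1))).toNat, by
      have : max (lo n) (lo (n + 1)) ≤ y := max_le c1 c2
      omega⟩
    have c1' := le_max_left (lo n) (lo (n + 1))
    have c2' := le_max_right (lo n) (lo (n + 1))
    induction k generalizing y with
    | zero =>
      have hs := slo n hn
      have hl1 := Ph_lo (a := a) (v := v) (ib := ib) (lo := lo) n
      have hl2 := Ph_lo (a := a) (v := v) (ib := ib) (lo := lo) (n + 1)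
      rw [Nat.cast_zero, add_zero] at hk
      push_cast at hl2
      rcases lt_trichotomy (lo (n + 1)) (lo n) with g | g | g
      · have g' : lo (n + 1) = lo n - 1 := by omega
        have hy : y = lo n := by rw [hk, max_eq_left (by omega)]
        have h1 := b2 n hn g'
        have h2 := Ph_succ (a := a) (v := v) (ib := ib) (lo := lo) (n := n + 1)
          (y := lo (n + 1)) le_rfl
        rw [hcast] at h2
        rw [hy]
        have e : lo (n + 1) + 1 = lo n := by omega
        rw [e, g'] at h2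
        rw [g'] at hl2
        rw [h2, hl1, hl2]
        linarith
      · have hy : y = lo n := by rw [hk, max_eq_left (by omega)]
        have h1 := b0 n hn g
        rw [hy, hl1]
        rw [g] at hl2
        rw [hl2, h1]; ring
      · have g' : lo (n + 1) = lo n + 1 := by omega
        have hy : y = lo n + 1 := by rw [hk, max_eq_right (by omega)]; omega
        have h1 := b1 n hn g'
        have h2 := Ph_succ (a := a) (v := v) (ib := ib) (lo := lo) (n := n) (y := lo n) le_rfl
        rw [hy, h2, hl1]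
        rw [g'] at hl2
        rw [hl2]
        linarith
    | succ k ih =>
      have hk' : y = max (lo n) (lo (n + 1)) + k + 1 := by rw [hk]; push_cast; ring
      have hi := ih (y - 1) (by omega) (by omega) (by omega) (by omega) (by omega)
      have h1 := Ph_succ (a := a) (v := v) (ib := ib) (lo := lo) (n := n) (y := y - 1) (by omega)
      have h2 := Ph_succ (a := a) (v := v) (ib := ib) (lo := lo) (n := n + 1) (y := y - 1)
        (by omega)
      have h3 := sq n hn (y - 1) (by omega) (by omega) (by omega) (by omega)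
      rw [sub_add_cancel] at h1 h2 h3
      rw [hcast] at h2
      linarith
  refine ⟨key, ?_⟩
  intro n hn
  induction n with
  | zero => simp
  | succ n ih =>
    have ih := ih (by omega)
    have hs := shi n (by omega)
    have hsl := slo n (by omega)
    have g1 := hgap n (by omega)
    have g2 := hgap (n + 1) hn
    push_cast
    rcases lt_trichotomy (hi (n + 1)) (hi n) with g | g | g
    · have g' : hi (n + 1) = hi n - 1 := by omega
      have h1 := t2 n (by omega) g'
      have h2 := key n (by omega) (hi n - 1) (by omega) (by omega) (by omega) (by omega)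
      have h3 := Ph_succ (a := a) (v := v) (ib := ib) (lo := lo) (n := n) (y := hi n - 1) (by omega)
      rw [sub_add_cancel] at h3
      rw [g']
      linarith
    · have h1 := t0 n (by omega) g
      have h2 := key n (by omega) (hi n) (by omega) (by omega) (by omega) (by omega)
      rw [g]
      linarith
    · have g' : hi (n + 1) = hi n + 1 := by omega
      have h1 := t1 n (by omega) g'
      have h2 := key n (by omega) (hi n) (by omega) (by omega) (by omega) (by omega)
      have h3 := Ph_succ (a := a) (v := v) (ib := ib) (lo := lo) (n := n + 1) (y := hi n) (by omega)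
      rw [hcast] at h3
      rw [g']
      linarith

end

/-! ### increments of the height -/

open Classical in
/-- vertical increment, zero next to the sites of `P` -/
noncomputable def vv (L : Cfg) (P : ℤ → ℤ → Prop) (x y : ℤ) : ℤ :=
  if P x y ∨ P x (y + 1) then 0 else (ht L x (y + 1) - ht L x y).valMinAbs

open Classical in
/-- horizontal increment, zero next to the sites of `P` -/
noncomputable def hh (L : Cfg) (P : ℤ → ℤ → Prop) (x y : ℤ) : ℤ :=
  if P x y ∨ P (x + 1) y then 0 else (ht L (x + 1) y - ht L x y).valMinAbs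

lemma sm_abs {a : ZMod 11} (h : sm a) : |a.valMinAbs| ≤ 2 := by
  rcases h with rfl | rfl | rfl | rfl | rfl <;> decide

lemma vma_cast (a : ZMod 11) : ((a.valMinAbs : ℤ) : ZMod 11) = a := ZMod.coe_valMinAbs a

/-- an integer of absolute value at most 10 which is 0 modulo 11 is 0 -/
lemma eq_of_cast {m n : ℤ} (h : (m : ZMod 11) = (n : ZMod 11)) (h1 : |m - n| ≤ 10) : m = n := by
  have h2 : ((m - n : ℤ) : ZMod 11) = 0 := by push_cast; rw [h, sub_self]
  rw [ZMod.intCast_zmod_eq_zero_iff_dvd] at h2
  obtain ⟨k, hk⟩ := h2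
  rw [abs_le] at h1
  push_cast at hk
  omega

/-- hypotheses on a region `R` and on the set `P` of sites in small islands -/
structure Reg (L : Cfg) (R P : ℤ → ℤ → Prop) : Prop where
  eH : ∀ x y, R x y → R (x + 1) y → ¬ P x y → ¬ P (x + 1) y → ¬ hc L x y
  eV : ∀ x y, R x y → R x (y + 1) → ¬ P x y → ¬ P x (y + 1) → ¬ vc L x y
  xR : ∀ x y, P x y → ¬ P (x + 1) y → hR L x y
  xL : ∀ x y, P (x + 1) y → ¬ P x y → hL L x y
  xU : ∀ x y, P x y → ¬ P x (y + 1) → vU L x y
  xD : ∀ x y, P x (y + 1) → ¬ P x y → vD L x y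

section
variable {L : Cfg} {R P : ℤ → ℤ → Prop} (V : ∀ x y, Rl L x y) (G : Reg L R P)
include V G

lemma Reg.v_le {x y : ℤ} (h1 : R x y) (h2 : R x (y + 1)) : |vv L P x y| ≤ 2 := by
  unfold vv
  split_ifs with h
  · simp
  · push Not at h
    exact sm_abs ((V x y).fV (G.eV x y h1 h2 h.1 h.2))

lemma Reg.h_le {x y : ℤ} (h1 : R x y) (h2 : R (x + 1) y) : |hh L P x y| ≤ 2 := by
  unfold hh
  split_ifs with h
  · simp
  · push Not at h
    exact sm_abs ((V x y).fH (G.eH x y h1 h2 h.1 h.2))

/-- a vertical edge of a square touching `P` has increment zero -/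
lemma Reg.v_zero_r {x y : ℤ} (h1 : R x y) (h2 : R x (y + 1))
    (hp : P (x + 1) y ∨ P (x + 1) (y + 1)) : vv L P x y = 0 := by
  unfold vv
  split_ifs with h
  · rfl
  · push Not at h
    have hv := G.eV x y h1 h2 h.1 h.2
    have : ht L x (y + 1) = ht L x y := by
      rcases hp with hp | hp
      · exact (V x y).oL1 (G.xL x y hp h.1) hv
      · have := (V x (y + 1)).oL2 (G.xL x (y + 1) hp h.2) (by rw [add_sub_cancel_right]; exact hv)
        rw [add_sub_cancel_right] at this
        exact this.symm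
    rw [this, sub_self, ZMod.valMinAbs_zero]

lemma Reg.v_zero_l {x y : ℤ} (h1 : R (x + 1) y) (h2 : R (x + 1) (y + 1))
    (hp : P x y ∨ P x (y + 1)) : vv L P (x + 1) y = 0 := by
  unfold vv
  split_ifs with h
  · rfl
  · push Not at h
    have hv := G.eV (x + 1) y h1 h2 h.1 h.2
    have : ht L (x + 1) (y + 1) = ht L (x + 1) y := by
      rcases hp with hp | hp
      · exact (V x y).oR1 (G.xR x y hp h.1) hv
      · have := (V x (y + 1)).oR2 (G.xR x (y + 1) hp h.2) (by rw [add_sub_cancel_right]; exact hv)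
        rw [add_sub_cancel_right] at this
        exact this.symm
    rw [this, sub_self, ZMod.valMinAbs_zero]

lemma Reg.h_zero_u {x y : ℤ} (h1 : R x y) (h2 : R (x + 1) y)
    (hp : P x (y + 1) ∨ P (x + 1) (y + 1)) : hh L P x y = 0 := by
  unfold hh
  split_ifs with h
  · rfl
  · push Not at h
    have hv := G.eH x y h1 h2 h.1 h.2
    have : ht L (x + 1) y = ht L x y := by
      rcases hp with hp | hp
      · exact (V x y).oD1 (G.xD x y hp h.1) hv
      · have := (V (x + 1) y).oD2 (G.xD (x + 1) y hp h.2) (by rw [add_sub_cancel_right]; exact hv)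
        rw [add_sub_cancel_right] at this
        exact this.symm
    rw [this, sub_self, ZMod.valMinAbs_zero]

lemma Reg.h_zero_d {x y : ℤ} (h1 : R x (y + 1)) (h2 : R (x + 1) (y + 1))
    (hp : P x y ∨ P (x + 1) y) : hh L P x (y + 1) = 0 := by
  unfold hh
  split_ifs with h
  · rfl
  · push Not at h
    have hv := G.eH x (y + 1) h1 h2 h.1 h.2
    have : ht L (x + 1) (y + 1) = ht L x (y + 1) := by
      rcases hp with hp | hp
      · exact (V x y).oU1 (G.xU x y hp h.1) hv
      · have := (V (x + 1) y).oU2 (G.xU (x + 1) y hp h.2) (by rw [add_sub_cancel_right]; exact hv)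
        rw [add_sub_cancel_right] at this
        exact this.symm
    rw [this, sub_self, ZMod.valMinAbs_zero]

lemma Reg.sq {x y : ℤ} (h00 : R x y) (h10 : R (x + 1) y) (h01 : R x (y + 1))
    (h11 : R (x + 1) (y + 1)) :
    vv L P x y + hh L P x (y + 1) = hh L P x y + vv L P (x + 1) y := by
  by_cases hp : P x y ∨ P (x + 1) y ∨ P x (y + 1) ∨ P (x + 1) (y + 1)
  · have e1 : vv L P x y = 0 := by
      by_cases h : P x y ∨ P x (y + 1)
      · unfold vv; rw [if_pos h]
      · exact G.v_zero_r V h00 h01 (by tauto)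
    have e2 : vv L P (x + 1) y = 0 := by
      by_cases h : P (x + 1) y ∨ P (x + 1) (y + 1)
      · unfold vv; rw [if_pos h]
      · exact G.v_zero_l V h10 h11 (by tauto)
    have e3 : hh L P x y = 0 := by
      by_cases h : P x y ∨ P (x + 1) y
      · unfold hh; rw [if_pos h]
      · exact G.h_zero_u V h00 h10 (by tauto)
    have e4 : hh L P x (y + 1) = 0 := by
      by_cases h : P x (y + 1) ∨ P (x + 1) (y + 1)
      · unfold hh; rw [if_pos h]
      · exact G.h_zero_d V h01 h11 (by tauto)
    rw [e1, e2, e3, e4]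
  · push Not at hp
    obtain ⟨p00, p10, p01, p11⟩ := hp
    have b1 := G.v_le V h00 h01
    have b2 := G.v_le V h10 h11
    have b3 := G.h_le V h00 h10
    have b4 := G.h_le V h01 h11
    apply eq_of_cast
    · have c1 : vv L P x y = (ht L x (y + 1) - ht L x y).valMinAbs := by
        unfold vv; rw [if_neg (by tauto)]
      have c2 : vv L P (x + 1) y = (ht L (x + 1) (y + 1) - ht L (x + 1) y).valMinAbs := by
        unfold vv; rw [if_neg (by tauto)]
      have c3 : hh L P x y = (ht L (x + 1) y - ht L x y).valMinAbs := by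
        unfold hh; rw [if_neg (by tauto)]
      have c4 : hh L P x (y + 1) = (ht L (x + 1) (y + 1) - ht L x (y + 1)).valMinAbs := by
        unfold hh; rw [if_neg (by tauto)]
      push_cast
      rw [c1, c2, c3, c4, vma_cast, vma_cast, vma_cast, vma_cast]
      ring
    · rw [abs_le] at *
      constructor <;> omega

end

end LCLZ
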