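import Pool.Agent.helper13.LCL.Pair

/-!
# Islands: crossing edges, laminarity, neighbourhoods
-/

namespace LCLZ

variable {L : Cfg}

/-- `(x,y)` belongs to the island with corner `(a,β)` -/
def inI (L : Cfg) (a β : ℤ) (N : ℕ) (x y : ℤ) : Prop :=
  ∃ n : ℕ, n ≤ N ∧ x = a + n ∧ pos L a β n ≤ y ∧ y ≤ pos L a (β + 10) n

/-- the marker is reachable from the start of a strand -/
def fin (L : Cfg) (x y : ℤ) : Prop :=
  ∃ (n : ℕ) (y0 : ℤ), M L (x - n) y0 ∧ S L (x - n) y0 ∧ al L (x - n) y0 n ∧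
    pos L (x - n) y0 n = y

/-- the second island lies strictly inside the first -/
def Sub (L : Cfg) (a2 β2 : ℤ) (N2 : ℕ) (a1 β1 : ℤ) (N1 : ℕ) : Prop :=
  ∃ k : ℕ, 1 ≤ k ∧ a2 = a1 + k ∧ k + N2 < N1 ∧ ∀ n ≤ N2,
    pos L a1 β1 (k + n) + 5 ≤ pos L a2 β2 n ∧
    pos L a2 (β2 + 10) n + 5 ≤ pos L a1 (β1 + 10) (k + n)

lemma Isl.Mb {a β : ℤ} {N : ℕ} (h : Isl L a β N) : M L a β := Or.inl h.b

section
variable (V : ∀ x y, Rl L x y)
include V

lemma Isl.Th {a β : ℤ} {N : ℕ} (h : Isl L a β N) : T L a (β + 10) :=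
  Or.inl ((V a β).sB h.b h.s).1

lemma Isl.Mh {a β : ℤ} {N : ℕ} (h : Isl L a β N) : M L a (β + 10) := Or.inr (h.Th V)

lemma Isl.Mlo {a β : ℤ} {N : ℕ} (h : Isl L a β N) {n : ℕ} (hn : n ≤ N) :
    B L (a + n) (pos L a β n) := B_pos V h.b (al_mono hn h.la)

lemma Isl.Mhi {a β : ℤ} {N : ℕ} (h : Isl L a β N) {n : ℕ} (hn : n ≤ N) :
    T L (a + n) (pos L a (β + 10) n) := T_pos V (h.Th V) (al_mono hn h.ha)

lemma Isl.gap {a β : ℤ} {N : ℕ} (h : Isl L a β N) {n : ℕ} (hn : n ≤ N) :
    pos L a β n + 5 ≤ pos L a (β + 10) n :=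
  order V h.Mb (h.Mh V) (by omega) (al_mono hn h.la) (al_mono hn h.ha)

/-- two markers of different kinds -/
lemma BT_ne {x y y' : ℤ} (h : B L x y) (h' : T L x y') : y ≠ y' := by
  rintro rfl
  exact not_B_of_T V h' h

/-! ### crossing edges of an island -/

lemma X1R {a β : ℤ} {N : ℕ} (h : Isl L a β N) {x y : ℤ} (h1 : inI L a β N x y)
    (h2 : ¬ inI L a β N (x + 1) y) : hR L x y := by
  obtain ⟨n, hn, rfl, hl, hh⟩ := h1
  rcases Nat.lt_or_ge n N with hlt | hge
  · have e1 := h.la n hlt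
    have e2 := h.ha n hlt
    by_cases c1 : pos L a β (n + 1) ≤ y
    · have c2 : ¬ y ≤ pos L a (β + 10) (n + 1) := by
        intro c2
        exact h2 ⟨n + 1, hlt, by push_cast; ring, c1, c2⟩
      rw [pos_succ] at c2
      have := le_dv L (a + n) (pos L a (β + 10) n)
      have e : y = pos L a (β + 10) n := by omega
      rw [e]
      refine Or.inr (Or.inl ⟨h.Mhi V hn, e2, ?_⟩)
      omega
    · rw [pos_succ] at c1
      have := dv_le L (a + n) (pos L a β n)
      have e : y = pos L a β n := by omega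
      rw [e]
      refine Or.inl ⟨h.Mlo V hn, e1, ?_⟩
      omega
  · have e : n = N := le_antisymm hn hge
    subst e
    refine Or.inr (Or.inr ⟨y - pos L a β n, by omega, ?_, ?_, ?_⟩)
    · have := h.eq; omega
    · rw [sub_sub_cancel]; exact h.Mlo V le_rfl
    · rw [sub_sub_cancel]; exact h.le

lemma X1L {a β : ℤ} {N : ℕ} (h : Isl L a β N) {x y : ℤ} (h1 : inI L a β N (x + 1) y)
    (h2 : ¬ inI L a β N x y) : hL L x y := by
  obtain ⟨n, hn, hx, hl, hh⟩ := h1
  rcases Nat.eq_zero_or_pos n with h0 | hpos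
  · subst h0
    refine Or.inr (Or.inr ⟨y - β, by simpa using hl, by simpa [add_comm] using hh, ?_, ?_⟩)
    · rw [sub_sub_cancel, hx]; simpa using h.b
    · rw [sub_sub_cancel, hx]; simpa using h.s
  · obtain ⟨m, rfl⟩ := Nat.exists_eq_add_of_le' hpos
    have hx' : x = a + m := by push_cast at hx; omega
    subst hx'
    have e1 := h.la m (by omega)
    have e2 := h.ha m (by omega)
    rw [pos_succ] at hl hh
    by_cases c1 : pos L a β m ≤ y
    · have c2 : ¬ y ≤ pos L a (β + 10) m := fun c2 => h2 ⟨m, by omega, rfl, c1, c2⟩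
      have := dv_le L (a + m) (pos L a (β + 10) m)
      have e : y - 1 = pos L a (β + 10) m := by omega
      refine Or.inr (Or.inl ?_)
      rw [e]
      exact ⟨h.Mhi V (by omega), e2, by omega⟩
    · have := le_dv L (a + m) (pos L a β m)
      have e : y + 1 = pos L a β m := by omega
      refine Or.inl ?_
      rw [e]
      exact ⟨h.Mlo V (by omega), e1, by omega⟩

lemma X1U {a β : ℤ} {N : ℕ} (h : Isl L a β N) {x y : ℤ} (h1 : inI L a β N x y)
    (h2 : ¬ inI L a β N x (y + 1)) : vU L x y := by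
  obtain ⟨n, hn, rfl, hl, hh⟩ := h1
  have : ¬ (y + 1 ≤ pos L a (β + 10) n) := fun c => h2 ⟨n, hn, rfl, by omega, c⟩
  have e : y = pos L a (β + 10) n := by omega
  rw [e]; exact h.Mhi V hn

lemma X1D {a β : ℤ} {N : ℕ} (h : Isl L a β N) {x y : ℤ} (h1 : inI L a β N x (y + 1))
    (h2 : ¬ inI L a β N x y) : vD L x y := by
  obtain ⟨n, hn, rfl, hl, hh⟩ := h1
  have : ¬ (pos L a β n ≤ y) := fun c => h2 ⟨n, hn, rfl, c, by omega⟩
  have e : y + 1 = pos L a β n := by omega
  unfold vD
  rw [e]; exact h.Mlo V hn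

/-! ### finite markers are on islands -/

lemma fin_B (F : Fn L) {x y : ℤ} (hb : B L x y) (hf : fin L x y) :
    ∃ a β N, ∃ n : ℕ, Isl L a β N ∧ n ≤ N ∧ x = a + n ∧ pos L a β n = y := by
  obtain ⟨n, y0, hM, hS, hal, hp⟩ := hf
  have hB : B L (x - n) y0 := by
    rcases hM with h | h
    · exact h
    · exfalso
      have := T_pos V h hal
      rw [hp, sub_add_cancel] at this
      exact not_B_of_T V this hb
  obtain ⟨N, hI⟩ := exists_isl V F hB hS
  refine ⟨x - n, y0, N, n, hI, ?_, by ring, hp⟩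
  by_contra hc
  push Not at hc
  exact hal N hc hI.le

lemma fin_T (F : Fn L) {x y : ℤ} (ht : T L x y) (hf : fin L x y) :
    ∃ a β N, ∃ n : ℕ, Isl L a β N ∧ n ≤ N ∧ x = a + n ∧ pos L a (β + 10) n = y := by
  obtain ⟨n, y0, hM, hS, hal, hp⟩ := hf
  have hT : T L (x - n) y0 := by
    rcases hM with h | h
    · exfalso
      have := B_pos V h hal
      rw [hp, sub_add_cancel] at this
      exact not_B_of_T V ht this
    · exact h
  obtain ⟨hB, hs⟩ := (V _ _).sT hT hS
  obtain ⟨N, hI⟩ := exists_isl V F hB hs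
  have e : y0 - 10 + 10 = y0 := by ring
  refine ⟨x - n, y0 - 10, N, n, hI, ?_, by ring, by rw [e]; exact hp⟩
  by_contra hc
  push Not at hc
  have := hI.he
  rw [e] at this
  exact hal N hc this

lemma fin_of_S {x y : ℤ} (hM : M L x y) (hS : S L x y) : fin L x y :=
  ⟨0, y, by simpa using hM, by simpa using hS, by simp, rfl⟩

lemma fin_of_E (F : Fn L) {x y : ℤ} (hM : M L x y) (hE : E L x y) : fin L x y := by
  obtain ⟨n, y0, h1, h2, h3, h4⟩ := F.bw x y hM hE
  exact ⟨n, y0, h1, h2, h3, h4⟩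

/-! ### finite crossing edges separate -/

lemma X2_lo1 {a β : ℤ} {N : ℕ} (h : Isl L a β N) {n : ℕ} (hn : n < N)
    (hd : dv L (a + n) (pos L a β n) = 1) :
    inI L a β N (a + n) (pos L a β n) ∧ ¬ inI L a β N (a + n + 1) (pos L a β n) := by
  refine ⟨⟨n, hn.le, rfl, le_rfl, ?_⟩, ?_⟩
  · have := h.gap V hn.le; omega
  · rintro ⟨m, hm, hx, hl, hh⟩
    have : m = n + 1 := by omega
    subst this
    rw [pos_succ] at hl
    omega

lemma X2_hi1 {a β : ℤ} {N : ℕ} (h : Isl L a β N) {n : ℕ} (hn : n < N)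
    (hd : dv L (a + n) (pos L a (β + 10) n) = -1) :
    inI L a β N (a + n) (pos L a (β + 10) n) ∧
      ¬ inI L a β N (a + n + 1) (pos L a (β + 10) n) := by
  refine ⟨⟨n, hn.le, rfl, ?_, le_rfl⟩, ?_⟩
  · have := h.gap V hn.le; omega
  · rintro ⟨m, hm, hx, hl, hh⟩
    have : m = n + 1 := by omega
    subst this
    rw [pos_succ] at hh
    omega

lemma X2R (F : Fn L) {x y : ℤ} (hf : M L x y → fin L x y) (h : hR L x y) :
    ∃ a β N, Isl L a β N ∧ inI L a β N x y ∧ ¬ inI L a β N (x + 1) y := by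
  rcases h with ⟨hb, he, hd⟩ | ⟨ht, he, hd⟩ | ⟨m, h0, h10, hb, he⟩
  · obtain ⟨a, β, N, n, hI, hn, rfl, rfl⟩ := fin_B V F hb (hf (Or.inl hb))
    have hlt : n < N := by
      rcases Nat.lt_or_ge n N with h | h
      · exact h
      · exfalso; have : n = N := le_antisymm hn h
        subst this; exact he hI.le
    exact ⟨a, β, N, hI, X2_lo1 V hI hlt hd⟩
  · obtain ⟨a, β, N, n, hI, hn, rfl, rfl⟩ := fin_T V F ht (hf (Or.inr ht))
    have hlt : n < N := by
      rcases Nat.lt_or_ge n N with h | h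
      · exact h
      · exfalso; have : n = N := le_antisymm hn h
        subst this; exact he hI.he
    exact ⟨a, β, N, hI, X2_hi1 V hI hlt hd⟩
  · obtain ⟨a, β, N, n, hI, hn, hx, hp⟩ := fin_B V F hb (fin_of_E V F (Or.inl hb) he)
    have : n = N := by
      refine end_unique (al_mono hn hI.la) ?_ hI.la hI.le
      rw [← hx, hp]; exact he
    subst this
    refine ⟨a, β, n, hI, ⟨n, le_rfl, hx, by omega, ?_⟩, ?_⟩
    · have := hI.eq; omega
    · rintro ⟨k, hk, hx', -, -⟩
      omega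

lemma X2L (F : Fn L) {x y : ℤ} (hf : M L x (y + 1) → fin L x (y + 1))
    (hf' : M L x (y - 1) → fin L x (y - 1)) (h : hL L x y) :
    ∃ a β N, Isl L a β N ∧ inI L a β N (x + 1) y ∧ ¬ inI L a β N x y := by
  rcases h with ⟨hb, he, hd⟩ | ⟨ht, he, hd⟩ | ⟨m, h0, h10, hb, hs⟩
  · obtain ⟨a, β, N, n, hI, hn, rfl, hp⟩ := fin_B V F hb (hf (Or.inl hb))
    have hlt : n < N := by
      rcases Nat.lt_or_ge n N with h | h
      · exact h
      · exfalso; have : n = N := le_antisymm hn h
        subst this; rw [← hp] at he; exact he hI.le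
    rw [← hp] at hd
    refine ⟨a, β, N, hI, ⟨n + 1, hlt, by push_cast; ring, ?_, ?_⟩, ?_⟩
    · rw [pos_succ]; omega
    · have := hI.gap V (n := n + 1) hlt
      rw [pos_succ (y := β)] at this
      omega
    · rintro ⟨k, hk, hx, hl, hh⟩
      have : k = n := by omega
      subst this; omega
  · obtain ⟨a, β, N, n, hI, hn, rfl, hp⟩ := fin_T V F ht (hf' (Or.inr ht))
    have hlt : n < N := by
      rcases Nat.lt_or_ge n N with h | h
      · exact h
      · exfalso; have : n = N := le_antisymm hn h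
        subst this; rw [← hp] at he; exact he hI.he
    rw [← hp] at hd
    refine ⟨a, β, N, hI, ⟨n + 1, hlt, by push_cast; ring, ?_, ?_⟩, ?_⟩
    · have := hI.gap V (n := n + 1) hlt
      rw [pos_succ (y := β + 10)] at this
      omega
    · rw [pos_succ]; omega
    · rintro ⟨k, hk, hx, hl, hh⟩
      have : k = n := by omega
      subst this; omega
  · obtain ⟨N, hI⟩ := exists_isl V F hb hs
    refine ⟨x + 1, y - m, N, hI, ⟨0, Nat.zero_le _, by simp, by simp; omega, by simp; omega⟩, ?_⟩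
    rintro ⟨k, hk, hx', -, -⟩
    omega

lemma X2U (F : Fn L) {x y : ℤ} (hf : M L x y → fin L x y) (h : vU L x y) :
    ∃ a β N, Isl L a β N ∧ inI L a β N x y ∧ ¬ inI L a β N x (y + 1) := by
  obtain ⟨a, β, N, n, hI, hn, rfl, rfl⟩ := fin_T V F h (hf (Or.inr h))
  refine ⟨a, β, N, hI, ⟨n, hn, rfl, ?_, le_rfl⟩, ?_⟩
  · have := hI.gap V hn; omega
  · rintro ⟨m, hm, hx, hl, hh⟩
    have : m = n := by omega
    subst this; omega

lemma X2D (F : Fn L) {x y : ℤ} (hf : M L x (y + 1) → fin L x (y + 1)) (h : vD L x y) :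
    ∃ a β N, Isl L a β N ∧ inI L a β N x (y + 1) ∧ ¬ inI L a β N x y := by
  obtain ⟨a, β, N, n, hI, hn, rfl, hp⟩ := fin_B V F h (hf (Or.inl h))
  refine ⟨a, β, N, hI, ⟨n, hn, rfl, by omega, ?_⟩, ?_⟩
  · have := hI.gap V hn; omega
  · rintro ⟨m, hm, hx, hl, hh⟩
    have : m = n := by omega
    subst this; omega

/-! ### laminarity -/

lemma lam_aux {a1 β1 a2 β2 : ℤ} {N1 N2 : ℕ} (h1 : Isl L a1 β1 N1) (h2 : Isl L a2 β2 N2)
    {k : ℕ} (hk : a2 = a1 + k) {x y : ℤ} (i1 : inI L a1 β1 N1 x y) (i2 : inI L a2 β2 N2 x y) :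
    (a1 = a2 ∧ β1 = β2 ∧ N1 = N2) ∨ Sub L a2 β2 N2 a1 β1 N1 := by
  obtain ⟨n1, hn1, hx1, hl1, hh1⟩ := i1
  obtain ⟨n2, hn2, hx2, hl2, hh2⟩ := i2
  have hn : n1 = k + n2 := by omega
  obtain ⟨-, -, hbt1⟩ := (V a1 β1).sB h1.b h1.s
  obtain ⟨hf2, hs2, hbt2⟩ := (V a2 β2).sB h2.b h2.s
  rcases Nat.eq_zero_or_pos k with h0 | hpos
  · subst h0
    have ea : a2 = a1 := by simpa using hk
    subst ea
    have en : n1 = n2 := by omega
    subst en
    rcases lt_trichotomy β1 β2 with h | h | h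
    · exfalso
      have c : β1 + 10 < β2 := by
        by_contra hc
        push Not at hc
        rcases eq_or_lt_of_le hc with h' | h'
        · exact BT_ne V h2.b (h1.Th V) h'
        · exact hbt1 (β2 - β1) (by omega) (by omega) (by convert h2.Mb using 1; ring)
      have := order V (h1.Mh V) h2.Mb c (al_mono hn1 h1.ha) (al_mono hn2 h2.la)
      omega
    · subst h
      exact Or.inl ⟨rfl, rfl, end_unique h1.la h1.le h2.la h2.le⟩
    · exfalso
      have c : β2 + 10 < β1 := by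
        by_contra hc
        push Not at hc
        rcases eq_or_lt_of_le hc with h' | h'
        · exact BT_ne V h1.b (h2.Th V) h'
        · exact hbt2 (β1 - β2) (by omega) (by omega) (by convert h1.Mb using 1; ring)
      have := order V (h2.Mh V) h1.Mb c (al_mono hn2 h2.ha) (al_mono hn1 h1.la)
      omega
  · right
    have hkN : k ≤ N1 := by omega
    have hla := al_add.1 (hn ▸ al_mono hn1 h1.la)
    have hha := al_add.1 (hn ▸ al_mono hn1 h1.ha)
    rw [← hk] at hla hha
    have hB1 : B L a2 (pos L a1 β1 k) := by rw [hk]; exact h1.Mlo V hkN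
    have hT1 : T L a2 (pos L a1 (β1 + 10) k) := by rw [hk]; exact h1.Mhi V hkN
    have hnS1 : ¬ S L a2 (pos L a1 β1 k) := by rw [hk]; exact not_S_pos V h1.Mb hpos hla.1
    have hnS2 : ¬ S L a2 (pos L a1 (β1 + 10) k) := by
      rw [hk]; exact not_S_pos V (h1.Mh V) hpos hha.1
    have hp1 : ∀ n, pos L a1 β1 (k + n) = pos L a2 (pos L a1 β1 k) n := by
      intro n; rw [pos_add, hk]
    have hp2 : ∀ n, pos L a1 (β1 + 10) (k + n) = pos L a2 (pos L a1 (β1 + 10) k) n := by
      intro n; rw [pos_add, hk]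
    rw [hn] at hl1 hh1
    rw [hp1] at hl1
    rw [hp2] at hh1
    -- base of 1 is below base of 2 at column a2
    have c1 : pos L a1 β1 k < β2 := by
      by_contra hc
      push Not at hc
      rcases eq_or_lt_of_le hc with h' | h'
      · rw [← h'] at hnS1; exact hnS1 h2.s
      · have c : β2 + 10 < pos L a1 β1 k := by
          by_contra hc'
          push Not at hc'
          rcases eq_or_lt_of_le hc' with h'' | h''
          · exact BT_ne V hB1 (h2.Th V) h''
          · have hh : M L a2 (pos L a1 β1 k) := Or.inl hB1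
            exact hbt2 (pos L a1 β1 k - β2) (by omega) (by omega)
              (by rw [add_sub_cancel]; exact hh)
        have := order V (h2.Mh V) (Or.inl hB1) c (al_mono hn2 h2.ha) hla.2
        omega
    have c2 : β2 + 10 < pos L a1 (β1 + 10) k := by
      by_contra hc
      push Not at hc
      rcases eq_or_lt_of_le hc with h' | h'
      · rw [h'] at hnS2; exact hnS2 hs2
      · have c : pos L a1 (β1 + 10) k < β2 := by
          by_contra hc'
          push Not at hc'
          rcases eq_or_lt_of_le hc' with h'' | h''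
          · exact BT_ne V h2.b hT1 h''
          · have hh : M L a2 (pos L a1 (β1 + 10) k) := Or.inr hT1
            exact hbt2 (pos L a1 (β1 + 10) k - β2) (by omega) (by omega)
              (by rw [add_sub_cancel]; exact hh)
        have := order V (Or.inr hT1) h2.Mb c hha.2 (al_mono hn2 h2.la)
        omega
    have key : ∀ n, n ≤ N2 → k + n ≤ N1 →
        pos L a1 β1 (k + n) + 5 ≤ pos L a2 β2 n ∧
        pos L a2 (β2 + 10) n + 5 ≤ pos L a1 (β1 + 10) (k + n) := by
      intro n hnN hkn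
      have ha1 := (al_add.1 (al_mono hkn h1.la)).2
      have ha2 := (al_add.1 (al_mono hkn h1.ha)).2
      rw [← hk] at ha1 ha2
      rw [hp1, hp2]
      exact ⟨order V (Or.inl hB1) h2.Mb c1 ha1 (al_mono hnN h2.la),
        order V (h2.Mh V) (Or.inr hT1) c2 (al_mono hnN h2.ha) ha2⟩
    have hend : k + N2 < N1 := by
      by_contra hc
      push Not at hc
      have k1 := key (N1 - k) (by omega) (by omega)
      have e : k + (N1 - k) = N1 := by omega
      rw [e] at k1
      have hBe := h1.Mlo V (le_refl N1)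
      obtain ⟨-, -, hnb⟩ := (V _ _).eB hBe h1.le
      have heq := h1.eq
      have hg := h2.gap V (n := N1 - k) (by omega)
      have hM := M_pos V h2.Mb (n := N1 - k) (al_mono (by omega) h2.la)
      apply hnb (pos L a2 β2 (N1 - k) - pos L a1 β1 N1) (by omega) (by omega)
      convert hM using 1
      · rw [hk]
        have : ((N1 - k : ℕ) : ℤ) = N1 - k := by push_cast [hkN]; ring
        rw [this]; ring
      · ring
    exact ⟨k, hpos, hk, hend, fun n hnN => key n hnN (by omega)⟩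

lemma lam {a1 β1 a2 β2 : ℤ} {N1 N2 : ℕ} (h1 : Isl L a1 β1 N1) (h2 : Isl L a2 β2 N2)
    {x y : ℤ} (i1 : inI L a1 β1 N1 x y) (i2 : inI L a2 β2 N2 x y) :
    (a1 = a2 ∧ β1 = β2 ∧ N1 = N2) ∨ Sub L a2 β2 N2 a1 β1 N1 ∨ Sub L a1 β1 N1 a2 β2 N2 := by
  rcases le_total a1 a2 with h | h
  · obtain ⟨k, hk⟩ := Int.le.dest h
    rcases lam_aux V h1 h2 hk.symm i1 i2 with h | h
    · exact Or.inl h
    · exact Or.inr (Or.inl h)
  · obtain ⟨k, hk⟩ := Int.le.dest h
    rcases lam_aux V h2 h1 hk.symm i2 i1 with ⟨h, h', h''⟩ | h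
    · exact Or.inl ⟨h.symm, h'.symm, h''.symm⟩
    · exact Or.inr (Or.inr h)

end

lemma Sub.mem {a1 β1 a2 β2 : ℤ} {N1 N2 : ℕ} (h : Sub L a2 β2 N2 a1 β1 N1) {x y : ℤ}
    (hi : inI L a2 β2 N2 x y) : inI L a1 β1 N1 x y := by
  obtain ⟨k, h1, rfl, h3, h4⟩ := h
  obtain ⟨n, hn, rfl, hl, hh⟩ := hi
  have := h4 n hn
  exact ⟨k + n, by omega, by push_cast; ring, by omega, by omega⟩

section
variable (V : ∀ x y, Rl L x y)
include V

/-- islands alive in the same column with nearby points intersect -/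
lemma near_col {a1 β1 a2 β2 : ℤ} {N1 N2 : ℕ} (h1 : Isl L a1 β1 N1) (h2 : Isl L a2 β2 N2)
    {n1 n2 : ℕ} (hn1 : n1 ≤ N1) (hn2 : n2 ≤ N2) (hx : a1 + (n1 : ℤ) = a2 + n2) {y1 y2 : ℤ}
    (c1 : pos L a1 β1 n1 - 1 ≤ y1) (c2 : y1 ≤ pos L a1 (β1 + 10) n1 + 1)
    (c3 : pos L a2 β2 n2 - 1 ≤ y2) (c4 : y2 ≤ pos L a2 (β2 + 10) n2 + 1)
    (h5 : y1 - y2 ≤ 1) (h6 : y2 - y1 ≤ 1) :
    ∃ x y, inI L a1 β1 N1 x y ∧ inI L a2 β2 N2 x y := by
  have g1 := h1.gap V hn1
  have g2 := h2.gap V hn2
  have M1 : M L (a1 + n1) (pos L a1 β1 n1) := Or.inl (h1.Mlo V hn1)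
  have M1' : M L (a1 + n1) (pos L a1 (β1 + 10) n1) := Or.inr (h1.Mhi V hn1)
  have M2 : M L (a1 + n1) (pos L a2 β2 n2) := by rw [hx]; exact Or.inl (h2.Mlo V hn2)
  have M2' : M L (a1 + n1) (pos L a2 (β2 + 10) n2) := by rw [hx]; exact Or.inr (h2.Mhi V hn2)
  by_cases hA : pos L a1 (β1 + 10) n1 < pos L a2 β2 n2
  · exfalso
    have := sp_lt V M1' M2 hA
    omega
  · by_cases hB : pos L a2 (β2 + 10) n2 < pos L a1 β1 n1
    · exfalso
      have := sp_lt V M2' M1 hB
      omega
    · refine ⟨a1 + n1, max (pos L a1 β1 n1) (pos L a2 β2 n2), ⟨n1, hn1, rfl, le_max_left _ _, ?_⟩,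
        ⟨n2, hn2, hx, le_max_right _ _, ?_⟩⟩
      · apply max_le <;> omega
      · apply max_le <;> omega

/-- A site outside an island but next to it lies only in islands containing it. -/
lemma nbhd {a β a2 β2 : ℤ} {N N2 : ℕ} (h : Isl L a β N) (h2 : Isl L a2 β2 N2)
    {x y x' y' : ℤ} (hin : inI L a β N x' y') (hout : ¬ inI L a β N x y)
    (hx1 : x - x' ≤ 1) (hx2 : x' - x ≤ 1) (hy1 : y - y' ≤ 1) (hy2 : y' - y ≤ 1)
    (hin2 : inI L a2 β2 N2 x y) : Sub L a β N a2 β2 N2 := by
  have key : (∃ x y, inI L a β N x y ∧ inI L a2 β2 N2 x y) → Sub L a β N a2 β2 N2 := by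
    rintro ⟨u, v, i1, i2⟩
    rcases lam V h h2 i1 i2 with ⟨rfl, rfl, rfl⟩ | h3 | h3
    · exact absurd hin2 hout
    · exact absurd (h3.mem hin2) hout
    · exact h3
  apply key
  obtain ⟨n, hn, hxn, hl, hh⟩ := hin
  obtain ⟨n2, hn2, hxn2, hl2, hh2⟩ := hin2
  have b1 := fun m => dv_le L (a + (m : ℕ)) (pos L a β m)
  have b2 := fun m => le_dv L (a + (m : ℕ)) (pos L a β m)
  have b3 := fun m => dv_le L (a + (m : ℕ)) (pos L a (β + 10) m)
  have b4 := fun m => le_dv L (a + (m : ℕ)) (pos L a (β + 10) m)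
  have b5 := fun m => dv_le L (a2 + (m : ℕ)) (pos L a2 β2 m)
  have b6 := fun m => le_dv L (a2 + (m : ℕ)) (pos L a2 β2 m)
  have b7 := fun m => dv_le L (a2 + (m : ℕ)) (pos L a2 (β2 + 10) m)
  have b8 := fun m => le_dv L (a2 + (m : ℕ)) (pos L a2 (β2 + 10) m)
  rcases lt_trichotomy x x' with hlt | heq | hgt
  · -- x' = x + 1
    by_cases hc : n2 + 1 ≤ N2
    · have p1 := pos_succ (L := L) a2 β2 n2
      have p2 := pos_succ (L := L) a2 (β2 + 10) n2
      have q1 := b5 n2
      have q2 := b6 n2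
      have q3 := b7 n2
      have q4 := b8 n2
      exact near_col V h h2 (n1 := n) (n2 := n2 + 1) hn hc (by push_cast; omega)
        (y1 := y') (y2 := y) (by omega) (by omega) (by omega) (by omega) (by omega) (by omega)
    · have en2 : n2 = N2 := by omega
      subst en2
      rcases Nat.eq_zero_or_pos n with h0 | hpos
      · exfalso
        subst h0
        have hBe := h2.Mlo V (le_refl n2)
        have heq := h2.eq
        simp only [pos_zero] at hl hh
        apply (V _ _).es hBe h2.le (β - pos L a2 β2 n2) (by omega) (by omega)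
        · convert h.b using 1
          · push_cast at hxn; omega
          · ring
        · convert h.s using 1
          · push_cast at hxn; omega
          · ring
      · obtain ⟨m, rfl⟩ : ∃ m : ℕ, n = m + 1 := ⟨n - 1, by omega⟩
        have p1 := pos_succ (L := L) a β m
        have p2 := pos_succ (L := L) a (β + 10) m
        have q1 := b1 m
        have q2 := b2 m
        have q3 := b3 m
        have q4 := b4 m
        push_cast at hxn
        exact near_col V h h2 (n1 := m) (n2 := n2) (by omega) hn2 (by omega)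
          (y1 := y') (y2 := y) (by omega) (by omega) (by omega) (by omega) (by omega) (by omega)
  · exact near_col V h h2 (n1 := n) (n2 := n2) hn hn2 (by omega)
        (y1 := y') (y2 := y) (by omega) (by omega) (by omega) (by omega) (by omega) (by omega)
  · -- x = x' + 1
    by_cases hc : n + 1 ≤ N
    · have p1 := pos_succ (L := L) a β n
      have p2 := pos_succ (L := L) a (β + 10) n
      have q1 := b1 n
      have q2 := b2 n
      have q3 := b3 n
      have q4 := b4 n
      exact near_col V h h2 (n1 := n + 1) (n2 := n2) hc hn2 (by push_cast; omega)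
        (y1 := y') (y2 := y) (by omega) (by omega) (by omega) (by omega) (by omega) (by omega)
    · have en : n = N := by omega
      subst en
      rcases Nat.eq_zero_or_pos n2 with h0 | hpos
      · exfalso
        subst h0
        have hBe := h.Mlo V (le_refl n)
        have heq := h.eq
        simp only [pos_zero] at hl2 hh2
        apply (V _ _).es hBe h.le (β2 - pos L a β n) (by omega) (by omega)
        · convert h2.b using 1
          · push_cast at hxn2; omega
          · ring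
        · convert h2.s using 1
          · push_cast at hxn2; omega
          · ring
      · obtain ⟨m, rfl⟩ : ∃ m : ℕ, n2 = m + 1 := ⟨n2 - 1, by omega⟩
        have p1 := pos_succ (L := L) a2 β2 m
        have p2 := pos_succ (L := L) a2 (β2 + 10) m
        have q1 := b5 m
        have q2 := b6 m
        have q3 := b7 m
        have q4 := b8 m
        push_cast at hxn2
        exact near_col V h h2 (n1 := n) (n2 := m) hn (by omega) (by omega)
          (y1 := y') (y2 := y) (by omega) (by omega) (by omega) (by omega) (by omega) (by omega)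

end

end LCLZ
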