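import Pool.Agent.helper13.LCL.Island

/-!
# Interface between the deterministic part and the measure part

`Nice L` lists the conditions which hold almost surely by mass transport.  Each relation
`Q.. L x y u v` says that the site `(x,y)` designates the site `(u,v)`; each site designates at most
one site, so almost surely each site is designated by finitely many sites.
-/

namespace LCLZ

/-- the strand through `(x,y)` starts at `(u,v)` -/
def QS (L : Cfg) (x y u v : ℤ) : Prop :=
  M L u v ∧ S L u v ∧ ∃ n : ℕ, x = u + n ∧ al L u v n ∧ pos L u v n = y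

/-- the strand through `(x,y)` ends at `(u,v)` -/
def QE (L : Cfg) (x y u v : ℤ) : Prop :=
  M L x y ∧ E L u v ∧ ∃ n : ℕ, u = x + n ∧ al L x y n ∧ pos L x y n = v

/-- the roof turns from rising to falling after `(u,v)` -/
def apex (L : Cfg) (u v : ℤ) : Prop := Lf L u v ∧ ¬ E L u v ∧ Rt L (u + 1) (v + dv L u v)

/-- two sites are on the same strand -/
def sameS (L : Cfg) (x y u v : ℤ) : Prop :=
  (M L x y ∧ ∃ n : ℕ, u = x + n ∧ al L x y n ∧ pos L x y n = v) ∨
    (M L u v ∧ ∃ n : ℕ, x = u + n ∧ al L u v n ∧ pos L u v n = y)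

/-- the apex of the strand through `(x,y)` is `(u,v)` -/
def QA (L : Cfg) (x y u v : ℤ) : Prop := sameS L x y u v ∧ apex L u v

/-- marker on a strand without a start -/
def Inf (L : Cfg) (x y : ℤ) : Prop := M L x y ∧ ¬ fin L x y

/-- `(u,v)` is on the topmost infinite strand of its column -/
def QT (L : Cfg) (x y u v : ℤ) : Prop :=
  u = x ∧ v ≤ y ∧ Inf L u v ∧ ∀ y' : ℤ, v < y' → ¬ Inf L u y'

/-- there is another infinite strand at distance at most `K` above -/
def close (K : ℕ) (L : Cfg) (x y : ℤ) : Prop := ∃ y' : ℤ, y < y' ∧ y' ≤ y + K ∧ Inf L x y'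

/-- `(u,v)` is the last site of the strand which has another infinite strand above at
distance at most `K` -/
def QK (K : ℕ) (L : Cfg) (x y u v : ℤ) : Prop :=
  sameS L x y u v ∧ Inf L u v ∧ close K L u v ∧
    ∀ n : ℕ, 1 ≤ n → ¬ close K L (u + n) (pos L u v n)

/-- the corner of an island containing `(x,y)` -/
def QI (L : Cfg) (x y u v : ℤ) : Prop := ∃ N, Isl L u v N ∧ inI L u v N x y

/-- the corner of the smallest island containing `(x,y)` -/
def QM (L : Cfg) (x y u v : ℤ) : Prop :=
  ∃ N, Isl L u v N ∧ inI L u v N x y ∧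
    ∀ a β N2, Isl L a β N2 → inI L a β N2 x y → ¬ Sub L a β N2 u v N

structure Nice (L : Cfg) : Prop where
  nS : ∀ u v, {z : ℤ × ℤ | QS L z.1 z.2 u v}.Finite
  nE : ∀ u v, {z : ℤ × ℤ | QE L z.1 z.2 u v}.Finite
  nA : ∀ u v, {z : ℤ × ℤ | QA L z.1 z.2 u v}.Finite
  nT : ∀ u v, {z : ℤ × ℤ | QT L z.1 z.2 u v}.Finite
  nK : ∀ (K : ℕ) u v, {z : ℤ × ℤ | QK K L z.1 z.2 u v}.Finite
  nI : ∀ x y, {c : ℤ × ℤ | QI L x y c.1 c.2}.Finite

/-- the site lies on no island -/
def Out (L : Cfg) (x y : ℤ) : Prop := ∀ a β N, Isl L a β N → ¬ inI L a β N x y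

end LCLZ
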