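import Pool.Agent.helper13.LCL.Strand

/-!
# Pairing of base and roof strands
-/

namespace LCLZ

variable {L : Cfg}

/-- strands with a start or an end are finite -/
structure Fn (L : Cfg) : Prop where
  fw : ∀ x y, M L x y → S L x y → ∃ n : ℕ, al L x y n ∧ E L (x + n) (pos L x y n)
  bw : ∀ x y, M L x y → E L x y → ∃ (n : ℕ) (y0 : ℤ), M L (x - n) y0 ∧ S L (x - n) y0 ∧
    al L (x - n) y0 n ∧ pos L (x - n) y0 n = y

/-- an island with lower left corner `(a,β)` and `N+1` columns -/
structure Isl (L : Cfg) (a β : ℤ) (N : ℕ) : Prop where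
  b : B L a β
  s : S L a β
  la : al L a β N
  le : E L (a + N) (pos L a β N)
  ha : al L a (β + 10) N
  he : E L (a + N) (pos L a (β + 10) N)
  eq : pos L a (β + 10) N = pos L a β N + 10

lemma end_unique {x y : ℤ} {n m : ℕ} (h1 : al L x y n) (h2 : E L (x + n) (pos L x y n))
    (h3 : al L x y m) (h4 : E L (x + m) (pos L x y m)) : n = m := by
  rcases lt_trichotomy n m with h | h | h
  · exact absurd h2 (h3 n h)
  · exact h
  · exact absurd h4 (h1 m h)

section
variable (V : ∀ x y, Rl L x y)
include V

lemma pair_aux (F : Fn L) : ∀ N : ℕ,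
    (∀ a β, B L a β → S L a β → al L a β N → E L (a + N) (pos L a β N) →
      al L a (β + 10) N → Isl L a β N) ∧
    (∀ a β, B L a β → S L a β → al L a (β + 10) N → E L (a + N) (pos L a (β + 10) N) →
      al L a β N → Isl L a β N) := by
  intro N
  induction N using Nat.strong_induction_on with
  | _ N IH =>
  constructor
  · intro a β hb hs la le ha
    obtain ⟨hl10, hs10, hbt⟩ := (V a β).sB hb hs
    have hMβ : M L a β := Or.inl hb
    have hM10 : M L a (β + 10) := Or.inr (Or.inl hl10)
    have hord := order V hMβ hM10 (by omega) la ha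
    have hbp := B_pos V hb la
    obtain ⟨hr, hre, hnb⟩ := (V _ _).eB hbp le
    have hMq := M_pos V hM10 ha
    have hMe : M L (a + N) (pos L a β N + 10) := Or.inr (Or.inr hr)
    rcases lt_trichotomy (pos L a (β + 10) N) (pos L a β N + 10) with h | h | h
    · exfalso
      apply hnb (pos L a (β + 10) N - pos L a β N) (by omega) (by omega)
      convert hMq using 1
      ring
    · refine ⟨hb, hs, la, le, ha, ?_, h⟩
      rw [h]; exact hre
    · exfalso
      obtain ⟨m, y0, hM0, hS0, hal0, hpos0⟩ := F.bw _ _ hMe hre
      rcases Nat.lt_or_ge m N with hm | hm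
      · obtain ⟨k, hk, hk1⟩ : ∃ k : ℕ, N = k + m ∧ 1 ≤ k := ⟨N - m, by omega, by omega⟩
        have ecol : a + (N : ℤ) - m = a + k := by rw [hk]; push_cast; ring
        rw [ecol] at hM0 hS0 hal0 hpos0
        have hT0 : T L (a + k) y0 := by
          rcases hM0 with h0 | h0
          · exfalso
            have := B_pos V h0 hal0
            rw [hpos0] at this
            have e : a + (k : ℤ) + m = a + N := by rw [hk]; push_cast; ring
            rw [e] at this
            exact (V _ _).br this hr
          · exact h0
        obtain ⟨hb1, hs1⟩ := (V _ _).sT hT0 hS0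
        obtain ⟨-, -, hnb1⟩ := (V _ _).sB hb1 hs1
        have hla := al_add.1 (hk ▸ la)
        have hpos : pos L a β N = pos L (a + k) (pos L a β k) m := by rw [hk, pos_add]
        have hMc := M_pos V hMβ hla.1
        have hc1 : pos L a β k < y0 := by
          apply order_back V hMc hM0 hla.2 hal0
          rw [← hpos, hpos0]; omega
        have hc2 : pos L a β k ≤ y0 - 10 := by
          by_contra hcon
          push Not at hcon
          apply hnb1 (pos L a β k - (y0 - 10)) (by omega) (by omega)
          convert hMc using 1
          ring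
        have hc3 : pos L a β k ≠ y0 - 10 := by
          intro hcon
          have := not_S_pos V hMβ hk1 hla.1
          rw [hcon] at this
          exact this hs1
        have hc4 : pos L a β k < y0 - 10 := lt_of_le_of_ne hc2 hc3
        obtain ⟨m', ham', hem'⟩ := F.fw _ _ (Or.inl hb1) hs1
        have e10 : y0 - 10 + 10 = y0 := by ring
        have hend : E L (a + k + m) (pos L (a + k) y0 m) := by
          rw [hpos0]
          have e : a + (k : ℤ) + m = a + N := by rw [hk]; push_cast; ring
          rw [e]; exact hre
        have hfin : Isl L (a + k) (y0 - 10) m → False := by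
          intro hI
          have h1 := hI.eq
          rw [e10, hpos0] at h1
          have h2 := order V hMc (Or.inl hb1) hc4 hla.2 hI.la
          rw [← hpos] at h2
          omega
        rcases lt_trichotomy m' m with h1 | h1 | h1
        · have hI := (IH m' (by omega)).1 (a + k) (y0 - 10) hb1 hs1 ham' hem'
            (by rw [e10]; exact al_mono (le_of_lt h1) hal0)
          have := hI.he
          rw [e10] at this
          exact hal0 m' h1 this
        · subst h1
          exact hfin ((IH m' (by omega)).1 (a + k) (y0 - 10) hb1 hs1 ham' hem'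
            (by rw [e10]; exact hal0))
        · exact hfin ((IH m (by omega)).2 (a + k) (y0 - 10) hb1 hs1
            (by rw [e10]; exact hal0) (by rw [e10]; exact hend) (al_mono (le_of_lt h1) ham'))
      · obtain ⟨k, rfl⟩ : ∃ k : ℕ, m = k + N := ⟨m - N, by omega⟩
        have h1 := al_add.1 hal0
        have e1 : a + (N : ℤ) - ((k + N : ℕ) : ℤ) + k = a := by push_cast; ring
        rw [e1] at h1
        have hM1 := M_pos V hM0 h1.1
        rw [e1] at hM1
        have hpos1 : pos L a (pos L (a + N - ((k + N : ℕ) : ℤ)) y0 k) N = pos L a β N + 10 := by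
          rw [← hpos0, pos_add, e1]
        have h2 := order_back V hMβ hM1 la h1.2 (by rw [hpos1]; omega)
        have h3 := order_back V hM1 hM10 h1.2 ha (by rw [hpos1]; omega)
        apply hbt (pos L (a + N - ((k + N : ℕ) : ℤ)) y0 k - β) (by omega) (by omega)
        convert hM1 using 1
        ring
  · intro a β hb hs ha he la
    obtain ⟨hl10, hs10, hbt⟩ := (V a β).sB hb hs
    have hMβ : M L a β := Or.inl hb
    have hT10 : T L a (β + 10) := Or.inl hl10
    have hM10 : M L a (β + 10) := Or.inr hT10
    have hord := order V hMβ hM10 (by omega) la ha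
    have hTq := T_pos V hT10 ha
    obtain ⟨hbe, hee⟩ := (V _ _).eT hTq he
    obtain ⟨-, -, hnb⟩ := (V _ _).eB hbe hee
    have hMp := M_pos V hMβ la
    have hMe : M L (a + N) (pos L a (β + 10) N - 10) := Or.inl hbe
    rcases lt_trichotomy (pos L a β N) (pos L a (β + 10) N - 10) with h | h | h
    · exfalso
      obtain ⟨m, y0, hM0, hS0, hal0, hpos0⟩ := F.bw _ _ hMe hee
      rcases Nat.lt_or_ge m N with hm | hm
      · obtain ⟨k, hk, hk1⟩ : ∃ k : ℕ, N = k + m ∧ 1 ≤ k := ⟨N - m, by omega, by omega⟩
        have ecol : a + (N : ℤ) - m = a + k := by rw [hk]; push_cast; ring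
        have ecol2 : a + (k : ℤ) + m = a + N := by rw [hk]; push_cast; ring
        rw [ecol] at hM0 hS0 hal0 hpos0
        have hB0 : B L (a + k) y0 := by
          rcases hM0 with h0 | h0
          · exact h0
          · exfalso
            have := T_pos V h0 hal0
            rw [hpos0, ecol2] at this
            exact not_B_of_T V this hbe
        obtain ⟨hb1, hs1, hnb1⟩ := (V _ _).sB hB0 hS0
        have hha := al_add.1 (hk ▸ ha)
        have hpos : pos L a (β + 10) N = pos L (a + k) (pos L a (β + 10) k) m := by
          rw [hk, pos_add]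
        have hMc := M_pos V hM10 hha.1
        have hM1 : M L (a + k) (y0 + 10) := Or.inr (Or.inl hb1)
        have hc1 : y0 < pos L a (β + 10) k := by
          apply order_back V hM0 hMc hal0 hha.2
          rw [← hpos, hpos0]; omega
        have hc2 : y0 + 10 ≤ pos L a (β + 10) k := by
          by_contra hcon
          push Not at hcon
          apply hnb1 (pos L a (β + 10) k - y0) (by omega) (by omega)
          convert hMc using 1
          ring
        have hc3 : y0 + 10 ≠ pos L a (β + 10) k := by
          intro hcon
          have := not_S_pos V hM10 hk1 hha.1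
          rw [← hcon] at this
          exact this hs1
        have hc4 : y0 + 10 < pos L a (β + 10) k := lt_of_le_of_ne hc2 hc3
        obtain ⟨m', ham', hem'⟩ := F.fw _ _ hM1 hs1
        have hend : E L (a + k + m) (pos L (a + k) y0 m) := by
          rw [hpos0, ecol2]; exact hee
        have hfin : Isl L (a + k) y0 m → False := by
          intro hI
          have h1 := hI.eq
          rw [hpos0] at h1
          have h2 := order V hM1 hMc hc4 hI.ha hha.2
          rw [← hpos] at h2
          omega
        rcases lt_trichotomy m' m with h1 | h1 | h1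
        · have hI := (IH m' (by omega)).2 (a + k) y0 hB0 hS0 ham' hem'
            (al_mono (le_of_lt h1) hal0)
          exact hal0 m' h1 hI.le
        · subst h1
          exact hfin ((IH m' (by omega)).2 (a + k) y0 hB0 hS0 ham' hem' hal0)
        · exact hfin ((IH m (by omega)).1 (a + k) y0 hB0 hS0 hal0 hend
            (al_mono (le_of_lt h1) ham'))
      · obtain ⟨k, rfl⟩ : ∃ k : ℕ, m = k + N := ⟨m - N, by omega⟩
        have h1 := al_add.1 hal0
        have e1 : a + (N : ℤ) - ((k + N : ℕ) : ℤ) + k = a := by push_cast; ring
        rw [e1] at h1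
        have hM1 := M_pos V hM0 h1.1
        rw [e1] at hM1
        have hpos1 : pos L a (pos L (a + N - ((k + N : ℕ) : ℤ)) y0 k) N = pos L a (β + 10) N - 10 := by
          rw [← hpos0, pos_add, e1]
        have h2 := order_back V hMβ hM1 la h1.2 (by rw [hpos1]; omega)
        have h3 := order_back V hM1 hM10 h1.2 ha (by rw [hpos1]; omega)
        apply hbt (pos L (a + N - ((k + N : ℕ) : ℤ)) y0 k - β) (by omega) (by omega)
        convert hM1 using 1
        ring
    · refine ⟨hb, hs, la, ?_, ha, he, by omega⟩
      rw [h]; exact hee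
    · exfalso
      apply hnb (pos L a β N - (pos L a (β + 10) N - 10)) (by omega) (by omega)
      convert hMp using 1
      ring

lemma exists_isl (F : Fn L) {a β : ℤ} (hb : B L a β) (hs : S L a β) :
    ∃ N, Isl L a β N := by
  obtain ⟨hl10, hs10, hbt⟩ := (V a β).sB hb hs
  obtain ⟨n, h1, h2⟩ := F.fw a β (Or.inl hb) hs
  obtain ⟨m, h3, h4⟩ := F.fw a (β + 10) (Or.inr (Or.inl hl10)) hs10
  rcases le_total n m with h | h
  · exact ⟨n, (pair_aux V F n).1 a β hb hs h1 h2 (al_mono h h3)⟩
  · exact ⟨m, (pair_aux V F m).2 a β hb hs h3 h4 (al_mono h h1)⟩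

end

end LCLZ
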