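import Pool.Agent.helper13.LCL.Defs

/-!
# Shapes of islands

An island of level `k`, in coordinates relative to its centre, is the set of `(x,y)` with
`a ≤ x ≤ b` and `lo x ≤ y ≤ hi x`.  `O j` (`j < k`) are the centres of the islands of level `j`
near it: the smaller islands are contained in the squares of half size `sz j` around them.
-/

namespace LCLZ

/-- supremum distance on `ℤ²` -/
def sd (p q : ℤ × ℤ) : ℤ := max |p.1 - q.1| |p.2 - q.2|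

structure Shape (sz : ℕ → ℤ) (k : ℕ) (O : ℕ → Set (ℤ × ℤ)) where
  a : ℤ
  t : ℤ
  b : ℤ
  lo : ℤ → ℤ
  hi : ℤ → ℤ
  ph : ℤ → ℤ → ℤ
  hat : a + 20 ≤ t
  htb : t + 20 ≤ b
  ha0 : a ≤ 0
  hb0 : 0 ≤ b
  lo0 : lo 0 ≤ 0
  hi0 : 0 ≤ hi 0
  hst : hi a = lo a + 10
  hen : hi b = lo b + 10
  lo1 : ∀ i, a ≤ i → i < b → |lo (i + 1) - lo i| ≤ 1
  lo2 : ∀ i, a ≤ i → i + 1 < b → |lo (i + 2) - lo i| ≤ 1
  hL1 : ∀ i, a ≤ i → i < t → hi i ≤ hi (i + 1) ∧ hi (i + 1) ≤ hi i + 1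
  hL3 : ∀ i, a ≤ i → i + 3 ≤ t → hi i + 2 ≤ hi (i + 3)
  hR1 : ∀ i, t ≤ i → i < b → hi i - 1 ≤ hi (i + 1) ∧ hi (i + 1) ≤ hi i
  hR3 : ∀ i, t ≤ i → i + 3 ≤ b → hi (i + 3) ≤ hi i - 2
  gap : ∀ i, a ≤ i → i ≤ b → lo i + 5 ≤ hi i
  ba : -sz k ≤ a
  bb : b ≤ sz k
  blo : ∀ i, a ≤ i → i ≤ b → -sz k ≤ lo i
  bhi : ∀ i, a ≤ i → i ≤ b → hi i ≤ sz k
  clo : ∀ j < k, ∀ u ∈ O j, ∀ i, a ≤ i → i ≤ b → sz j + 20 ≤ sd (i, lo i) u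
  chi : ∀ j < k, ∀ u ∈ O j, ∀ i, a ≤ i → i ≤ b → sz j + 20 ≤ sd (i, hi i) u
  ca : ∀ j < k, ∀ u ∈ O j, ∀ y, lo a ≤ y → y ≤ hi a → sz j + 20 ≤ sd (a, y) u
  cb : ∀ j < k, ∀ u ∈ O j, ∀ y, lo b ≤ y → y ≤ hi b → sz j + 20 ≤ sd (b, y) u
  phH : ∀ x y, |ph (x + 1) y - ph x y| ≤ 2
  phV : ∀ x y, |ph x (y + 1) - ph x y| ≤ 2
  phlo : ∀ i, a ≤ i → i ≤ b → ph i (lo i) = i - a
  phhi : ∀ i, a ≤ i → i ≤ b → ph i (hi i) = i - a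
  pha : ∀ y, lo a ≤ y → y ≤ hi a → ph a y = 0
  phb : ∀ y, lo b ≤ y → y ≤ hi b → ph b y = b - a
  phc : ∀ j < k, ∀ u ∈ O j, ∀ p q : ℤ × ℤ, sd p u ≤ sz j + 3 → sd q u ≤ sz j + 3 →
    ph p.1 p.2 = ph q.1 q.2

/-- centres of the same level are far apart -/
def Sep (rr : ℕ → ℤ) (k : ℕ) (O : ℕ → Set (ℤ × ℤ)) : Prop :=
  ∀ j < k, ∀ u ∈ O j, ∀ v ∈ O j, u ≠ v → rr j ≤ sd u v

/-- the point (relative to the centre) lies in the island -/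
def Shape.mem {sz : ℕ → ℤ} {k : ℕ} {O : ℕ → Set (ℤ × ℤ)} (s : Shape sz k O) (x y : ℤ) : Prop :=
  s.a ≤ x ∧ x ≤ s.b ∧ s.lo x ≤ y ∧ y ≤ s.hi x

/-- direction with value `e` (for `e = -1, 0, 1`) -/
def Dr.of (e : ℤ) : Dr := if e = -1 then .m else if e = 0 then .z else .p

/-- label of a point of the island (relative to the centre) -/
noncomputable def Shape.lab {sz : ℕ → ℤ} {k : ℕ} {O : ℕ → Set (ℤ × ℤ)} (s : Shape sz k O)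
    (x y : ℤ) : Lab where
  b := decide (y = s.lo x)
  l := decide (y = s.hi x ∧ x < s.t)
  r := decide (y = s.hi x ∧ s.t ≤ x)
  st := decide (x = s.a)
  en := decide (x = s.b)
  d := if y = s.lo x then Dr.of (s.lo (x + 1) - s.lo x) else Dr.of (s.hi (x + 1) - s.hi x)
  c := ((x + y : ℤ) : ZMod 2)
  f := ((s.ph x y : ℤ) : ZMod 11)

end LCLZ
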