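import Pool.Agent.helper13.LCL.Defs

/-!
# Strands of markers
-/

namespace LCLZ

/-- height of the strand through `(x,y)` after `n` columns -/
def pos (L : Cfg) (x y : ℤ) : ℕ → ℤ
  | 0 => y
  | n + 1 => pos L x y n + dv L (x + n) (pos L x y n)

/-- the strand does not end during the first `n` columns -/
def al (L : Cfg) (x y : ℤ) (n : ℕ) : Prop := ∀ m < n, ¬ E L (x + (m : ℕ)) (pos L x y m)

variable {L : Cfg}

@[simp] lemma pos_zero (x y : ℤ) : pos L x y 0 = y := rfl

lemma pos_succ (x y : ℤ) (n : ℕ) :
    pos L x y (n + 1) = pos L x y n + dv L (x + n) (pos L x y n) := rfl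

lemma pos_add (x y : ℤ) (m n : ℕ) :
    pos L x y (m + n) = pos L (x + m) (pos L x y m) n := by
  induction n with
  | zero => rfl
  | succ n ih =>
    rw [← add_assoc, pos_succ, pos_succ, ih]
    congr 2
    push_cast; ring

lemma pos_succ' (x y : ℤ) (n : ℕ) :
    pos L x y (n + 1) = pos L (x + 1) (y + dv L x y) n := by
  rw [add_comm, pos_add, pos_succ]
  simp

lemma al_mono {x y : ℤ} {m n : ℕ} (h : m ≤ n) (ha : al L x y n) : al L x y m :=
  fun k hk => ha k (lt_of_lt_of_le hk h)

@[simp] lemma al_zero (x y : ℤ) : al L x y 0 := fun m hm => absurd hm (Nat.not_lt_zero m)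

lemma al_succ {x y : ℤ} {n : ℕ} :
    al L x y (n + 1) ↔ al L x y n ∧ ¬ E L (x + n) (pos L x y n) := by
  constructor
  · intro h
    exact ⟨al_mono (Nat.le_succ n) h, h n (Nat.lt_succ_self n)⟩
  · rintro ⟨h1, h2⟩ m hm
    rcases Nat.lt_succ_iff_lt_or_eq.1 hm with h | h
    · exact h1 m h
    · subst h; exact h2

lemma al_add {x y : ℤ} {m n : ℕ} :
    al L x y (m + n) ↔ al L x y m ∧ al L (x + m) (pos L x y m) n := by
  induction n with
  | zero => simp
  | succ n ih =>
    rw [← add_assoc, al_succ, ih, al_succ, pos_add, and_assoc]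
    have : (x + ((m + n : ℕ) : ℤ)) = x + m + n := by push_cast; ring
    rw [this]

section
variable (V : ∀ x y, Rl L x y)
include V

lemma M_pos {x y : ℤ} (h : M L x y) : ∀ {n : ℕ}, al L x y n → M L (x + n) (pos L x y n) := by
  intro n
  induction n with
  | zero => intro _; simpa using h
  | succ n ih =>
    intro ha
    rw [al_succ] at ha
    have := (V _ _).nM (ih ha.1) ha.2
    rw [pos_succ]
    convert this using 1
    push_cast; ring

lemma B_pos {x y : ℤ} (h : B L x y) : ∀ {n : ℕ}, al L x y n → B L (x + n) (pos L x y n) := by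
  intro n
  induction n with
  | zero => intro _; simpa using h
  | succ n ih =>
    intro ha
    rw [al_succ] at ha
    have := (V _ _).nB (ih ha.1) ha.2
    rw [pos_succ]
    convert this using 1
    push_cast; ring

lemma T_pos {x y : ℤ} (h : T L x y) : ∀ {n : ℕ}, al L x y n → T L (x + n) (pos L x y n) := by
  intro n
  induction n with
  | zero => intro _; simpa using h
  | succ n ih =>
    intro ha
    rw [al_succ] at ha
    have : T L (x + n + 1) (pos L x y n + dv L (x + n) (pos L x y n)) := by
      rcases ih ha.1 with h1 | h1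
      · exact (V _ _).nL h1 ha.2
      · exact Or.inr ((V _ _).nR h1 ha.2)
    rw [pos_succ]
    convert this using 1
    push_cast; ring

lemma not_B_of_T {x y : ℤ} (h : T L x y) : ¬ B L x y := by
  intro hb
  rcases h with h | h
  · exact (V x y).bl hb h
  · exact (V x y).br hb h

lemma not_S_pos {x y : ℤ} (h : M L x y) {n : ℕ} (hn : 1 ≤ n) (ha : al L x y n) :
    ¬ S L (x + n) (pos L x y n) := by
  obtain ⟨k, rfl⟩ := Nat.exists_eq_add_of_le' hn
  rw [al_succ] at ha
  have := (V _ _).nS (M_pos V h ha.1) ha.2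
  rw [pos_succ]
  convert this using 2
  push_cast; ring

lemma sp_lt {x y y' : ℤ} (h : M L x y) (h' : M L x y') (hlt : y < y') : y + 5 ≤ y' := by
  by_contra hc
  push Not at hc
  have := (V x y).sp h (y' - y) (by omega) (by omega)
  apply this
  convert h' using 1
  ring

lemma sp_eq {x y y' : ℤ} (h : M L x y) (h' : M L x y') (h1 : y' - y ≤ 4) (h2 : y - y' ≤ 4) :
    y = y' := by
  rcases lt_trichotomy y y' with h3 | h3 | h3
  · have := sp_lt V h h' h3; omega
  · exact h3
  · have := sp_lt V h' h h3; omega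

lemma order {x y y' : ℤ} (h : M L x y) (h' : M L x y') (hlt : y < y') :
    ∀ {n : ℕ}, al L x y n → al L x y' n → pos L x y n + 5 ≤ pos L x y' n := by
  intro n
  induction n with
  | zero => intro _ _; simpa using sp_lt V h h' hlt
  | succ n ih =>
    intro ha ha'
    have h1 := M_pos V h ha
    have h2 := M_pos V h' ha'
    have h3 := ih (al_mono (Nat.le_succ n) ha) (al_mono (Nat.le_succ n) ha')
    have h4 := dv_le L (x + n) (pos L x y n)
    have h5 := le_dv L (x + n) (pos L x y' n)
    apply sp_lt V h1 h2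
    rw [pos_succ, pos_succ]
    omega

lemma order_back {x y y' : ℤ} (h : M L x y) (h' : M L x y') {n : ℕ} (ha : al L x y n)
    (ha' : al L x y' n) (hlt : pos L x y n < pos L x y' n) : y < y' := by
  rcases lt_trichotomy y y' with h3 | h3 | h3
  · exact h3
  · subst h3; omega
  · have := order V h' h h3 ha' ha; omega

lemma pos_inj {x y y' : ℤ} (h : M L x y) (h' : M L x y') {n : ℕ} (ha : al L x y n)
    (ha' : al L x y' n) (he : pos L x y n = pos L x y' n) : y = y' := by
  rcases lt_trichotomy y y' with h3 | h3 | h3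
  · have := order V h h' h3 ha ha'; omega
  · exact h3
  · have := order V h' h h3 ha' ha; omega

/-- slope of base strands -/
lemma slopeB {x y : ℤ} (h : B L x y) : ∀ {n : ℕ}, al L x y n → 2 * |pos L x y n - y| ≤ n + 1 := by
  have key : ∀ k : ℕ, al L x y (2 * k) → |pos L x y (2 * k) - y| ≤ k := by
    intro k
    induction k with
    | zero => simp
    | succ k ih =>
      intro ha
      have e : 2 * (k + 1) = 2 * k + 1 + 1 := by ring
      rw [e] at ha ⊢
      rw [al_succ, al_succ] at ha
      have h1 := (V _ _).slB (B_pos V h ha.1.1) ha.1.2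
      have h2 := ih ha.1.1
      rw [pos_succ, pos_succ]
      have h3 := ha.2
      rw [pos_succ] at h3
      have e2 : (x + ((2 * k + 1 : ℕ) : ℤ)) = x + ((2 * k : ℕ) : ℤ) + 1 := by push_cast; ring
      rw [e2] at h3 ⊢
      have h4 := h1 h3
      rw [abs_le] at *
      rw [Nat.cast_succ]
      constructor <;> omega
  intro n ha
  rcases Nat.even_or_odd' n with ⟨k, hk | hk⟩
  · subst hk
    have := key k ha
    push_cast; omega
  · subst hk
    rw [al_succ] at ha
    have := key k ha.1
    rw [pos_succ]
    have h4 := dv_le L (x + ((2 * k : ℕ) : ℤ)) (pos L x y (2 * k))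
    have h5 := le_dv L (x + ((2 * k : ℕ) : ℤ)) (pos L x y (2 * k))
    have : |pos L x y (2 * k) + dv L (x + ((2 * k : ℕ) : ℤ)) (pos L x y (2 * k)) - y| ≤ k + 1 := by
      rw [abs_le] at *
      constructor <;> omega
    push_cast at *
    omega

lemma slopeL {x y : ℤ} : ∀ {n : ℕ}, al L x y n → (∀ m < n, Lf L (x + (m : ℕ)) (pos L x y m)) →
    2 * (n : ℤ) - 4 ≤ 3 * (pos L x y n - y) := by
  have key : ∀ k : ℕ, al L x y (3 * k) →
      (∀ m < 3 * k, Lf L (x + (m : ℕ)) (pos L x y m)) → 2 * (k : ℤ) ≤ pos L x y (3 * k) - y := by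
    intro k
    induction k with
    | zero => simp
    | succ k ih =>
      intro ha hl
      have e : 3 * (k + 1) = 3 * k + 1 + 1 + 1 := by ring
      rw [e] at ha hl ⊢
      have h0 := hl (3 * k) (by omega)
      have h1 := hl (3 * k + 1) (by omega)
      have h2 := hl (3 * k + 1 + 1) (by omega)
      have hi := ih (al_mono (by omega) ha) (fun m hm => hl m (by omega))
      have e1 : (x + ((3 * k + 1 : ℕ) : ℤ)) = x + ((3 * k : ℕ) : ℤ) + 1 := by push_cast; ring
      have e2 : (x + ((3 * k + 1 + 1 : ℕ) : ℤ)) = x + ((3 * k : ℕ) : ℤ) + 2 := by push_cast; ring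
      rw [pos_succ] at h2
      rw [pos_succ] at h1 h2
      rw [e1] at h1 h2
      rw [e2] at h2
      have h3 := (V _ _).slL3 h0 h1 h2
      rw [pos_succ, pos_succ, pos_succ, e1, e2, Nat.cast_succ]
      omega
  intro n ha hl
  have h3 : n = 3 * (n / 3) + n % 3 := by omega
  have hr : n % 3 < 3 := Nat.mod_lt _ (by norm_num)
  have hk := key (n / 3) (al_mono (by omega) ha) (fun m hm => hl m (by omega))
  have hstep : ∀ r : ℕ, 3 * (n / 3) + r ≤ n → pos L x y (3 * (n / 3)) ≤
      pos L x y (3 * (n / 3) + r) := by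
    intro r
    induction r with
    | zero => simp
    | succ r ih =>
      intro hle
      have := ih (by omega)
      rw [← add_assoc, pos_succ]
      have := (V _ _).slL (hl (3 * (n / 3) + r) (by omega))
      omega
  have := hstep (n % 3) (by omega)
  rw [← h3] at this
  omega

lemma slopeR {x y : ℤ} (h : Rt L x y) : ∀ {n : ℕ}, al L x y n →
    3 * (pos L x y n - y) ≤ - 2 * (n : ℤ) + 4 := by
  have hR : ∀ {n : ℕ}, al L x y n → Rt L (x + n) (pos L x y n) := by
    intro n
    induction n with
    | zero => intro _; simpa using h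
    | succ n ih =>
      intro ha
      rw [al_succ] at ha
      have := (V _ _).nR (ih ha.1) ha.2
      rw [pos_succ]
      convert this using 1
      push_cast; ring
  have key : ∀ k : ℕ, al L x y (3 * k) → pos L x y (3 * k) - y ≤ - 2 * (k : ℤ) := by
    intro k
    induction k with
    | zero => simp
    | succ k ih =>
      intro ha
      have e : 3 * (k + 1) = 3 * k + 1 + 1 + 1 := by ring
      rw [e] at ha ⊢
      rw [al_succ, al_succ, al_succ] at ha
      obtain ⟨⟨⟨a0, a1⟩, a2⟩, a3⟩ := ha
      have hi := ih a0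
      have e1 : (x + ((3 * k + 1 : ℕ) : ℤ)) = x + ((3 * k : ℕ) : ℤ) + 1 := by push_cast; ring
      have e2 : (x + ((3 * k + 1 + 1 : ℕ) : ℤ)) = x + ((3 * k : ℕ) : ℤ) + 2 := by push_cast; ring
      rw [pos_succ] at a3
      rw [pos_succ] at a2 a3
      rw [e1] at a2 a3
      rw [e2] at a3
      have h3 := (V _ _).slR3 (hR a0) a1 a2 a3
      rw [pos_succ, pos_succ, pos_succ, e1, e2, Nat.cast_succ]
      omega
  intro n ha
  have h3 : n = 3 * (n / 3) + n % 3 := by omega
  have hr : n % 3 < 3 := Nat.mod_lt _ (by norm_num)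
  have hk := key (n / 3) (al_mono (by omega) ha)
  have hstep : ∀ r : ℕ, 3 * (n / 3) + r ≤ n → pos L x y (3 * (n / 3) + r) ≤
      pos L x y (3 * (n / 3)) := by
    intro r
    induction r with
    | zero => simp
    | succ r ih =>
      intro hle
      have := ih (by omega)
      rw [← add_assoc, pos_succ]
      have h7 := ha (3 * (n / 3) + r) (by omega)
      have := (V _ _).slR (hR (al_mono (by omega) ha)) h7
      omega
  have := hstep (n % 3) (by omega)
  rw [← h3] at this
  omega

end

end LCLZ
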